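import Mathlib

set_option autoImplicit false

open Set Topology MeasureTheory Filter
open scoped Pointwise

namespace Pool.Agent.Helper249.Ogp

/-- The selection principle `S_1(A, B)` for families of covers of a set `X`. -/
def S1 {X : Type} (A B : Set (Set (Set X))) : Prop :=
  ∀ 𝒰 : ℕ → Set (Set X), (∀ n, 𝒰 n ∈ A) → ∃ U : ℕ → Set X, (∀ n, U n ∈ 𝒰 n) ∧ Set.range U ∈ B

/-- Open ω-covers. -/
def Omega (X : Type) [TopologicalSpace X] : Set (Set (Set X)) :=
  {𝒰 | (∀ U ∈ 𝒰, IsOpen U) ∧ Set.univ ∉ 𝒰 ∧ ∀ F : Set X, F.Finite → ∃ U ∈ 𝒰, F ⊆ U}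

/-! ### failure of `S_1(Ω, Ω)` -/

lemma small_cover (X : Set ℝ) (F : Set X) (hF : F.Finite) (ε : ℝ) (hε : 0 < ε) :
    ∃ U : Set X, IsOpen U ∧ F ⊆ U ∧
      volume ((Subtype.val '' U : Set ℝ) + (Subtype.val '' U : Set ℝ)) ≤ ENNReal.ofReal ε := by
  classical
  obtain ⟨F, rfl⟩ := hF.exists_finset_coe
  set δ : ℝ := ε / (4 * ((F.card : ℝ) ^ 2 + 1)) with hδ
  have hδ0 : 0 < δ := by positivity
  set W : Set X := ⋃ x ∈ F, Subtype.val ⁻¹' (Ioo ((x : ℝ) - δ) (x + δ)) with hW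
  refine ⟨W, ?_, ?_, ?_⟩
  · exact isOpen_biUnion fun x _ => isOpen_Ioo.preimage continuous_subtype_val
  · intro x hx
    simp only [hW, mem_iUnion]
    exact ⟨x, hx, by simp [hδ0]⟩
  · have hsub : ((Subtype.val '' W : Set ℝ) + (Subtype.val '' W : Set ℝ)) ⊆
        ⋃ p ∈ F ×ˢ F, Ioo ((p.1 : ℝ) + p.2 - 2 * δ) (p.1 + p.2 + 2 * δ) := by
      rintro z ⟨a, ⟨a', ha, rfl⟩, b, ⟨b', hb, rfl⟩, rfl⟩
      simp only [hW, mem_iUnion, mem_preimage, mem_Ioo] at ha hb
      obtain ⟨x, hx, hx1, hx2⟩ := ha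
      obtain ⟨y, hy, hy1, hy2⟩ := hb
      simp only [mem_iUnion]
      refine ⟨(x, y), Finset.mk_mem_product hx hy, ?_⟩
      constructor
      · simp only; linarith
      · simp only; linarith
    calc _ ≤ volume (⋃ p ∈ F ×ˢ F, Ioo ((p.1 : ℝ) + p.2 - 2 * δ) (p.1 + p.2 + 2 * δ)) :=
          measure_mono hsub
      _ ≤ ∑ p ∈ F ×ˢ F, volume (Ioo ((p.1 : ℝ) + p.2 - 2 * δ) (p.1 + p.2 + 2 * δ)) :=
          measure_biUnion_finset_le _ _
      _ = ∑ p ∈ F ×ˢ F, ENNReal.ofReal (4 * δ) := by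
          apply Finset.sum_congr rfl
          intro p _
          rw [Real.volume_Ioo]
          congr 1; ring
      _ = ENNReal.ofReal ((F.card : ℝ) ^ 2 * (4 * δ)) := by
          rw [Finset.sum_const, Finset.card_product, nsmul_eq_mul, ENNReal.ofReal_mul (p := (F.card : ℝ) ^ 2) (by positivity),
            ENNReal.ofReal_pow (by positivity), ENNReal.ofReal_natCast]
          push_cast
          ring
      _ ≤ ENNReal.ofReal ε := by
          apply ENNReal.ofReal_le_ofReal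
          rw [hδ]
          have h1 : (0:ℝ) < (F.card : ℝ) ^ 2 + 1 := by positivity
          have : (F.card : ℝ) ^ 2 * (4 * (ε / (4 * ((F.card : ℝ) ^ 2 + 1))))
              = ε * ((F.card : ℝ) ^ 2 / ((F.card : ℝ) ^ 2 + 1)) := by field_simp
          rw [this]
          have h2 : (F.card : ℝ) ^ 2 / ((F.card : ℝ) ^ 2 + 1) ≤ 1 := by
            rw [div_le_one h1]; linarith
          nlinarith

lemma not_S1 (X : Set ℝ) (hX : ∀ z : ℝ, ∃ x ∈ X, ∃ y ∈ X, x + y = z) :
    ¬ S1 (Omega X) (Omega X) := by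
  intro h
  obtain ⟨U, hU, hU2⟩ := h (fun n => {U : Set X | IsOpen U ∧
    volume ((Subtype.val '' U : Set ℝ) + (Subtype.val '' U : Set ℝ)) ≤
      ENNReal.ofReal ((1 / 2 : ℝ) ^ n)}) (by
    intro n
    refine ⟨fun U hU => hU.1, ?_, ?_⟩
    · rintro ⟨-, h2⟩
      have : ((Subtype.val '' (univ : Set X) : Set ℝ) + (Subtype.val '' (univ : Set X) : Set ℝ))
          = univ := by
        rw [eq_univ_iff_forall]
        intro z
        obtain ⟨x, hx, y, hy, rfl⟩ := hX z
        exact ⟨x, ⟨⟨x, hx⟩, trivial, rfl⟩, y, ⟨⟨y, hy⟩, trivial, rfl⟩, rfl⟩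
      rw [this, Real.volume_univ] at h2
      exact absurd h2 (by simp)
    · intro F hF
      obtain ⟨U, h1, h2, h3⟩ := small_cover X F hF ((1 / 2 : ℝ) ^ n) (by positivity)
      exact ⟨U, ⟨h1, h3⟩, h2⟩)
  have hcov : (univ : Set ℝ) ⊆ ⋃ n, ((Subtype.val '' (U n) : Set ℝ) + (Subtype.val '' (U n) : Set ℝ)) := by
    intro z _
    obtain ⟨x, hx, y, hy, rfl⟩ := hX z
    obtain ⟨V, ⟨n, rfl⟩, hV⟩ := hU2.2.2 {⟨x, hx⟩, ⟨y, hy⟩} (by simp)
    rw [mem_iUnion]
    exact ⟨n, x, ⟨⟨x, hx⟩, hV (by simp), rfl⟩, y, ⟨⟨y, hy⟩, hV (by simp), rfl⟩, rfl⟩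
  have h1 : volume (univ : Set ℝ) ≤ ∑' n, ENNReal.ofReal ((1 / 2 : ℝ) ^ n) :=
    (measure_mono hcov).trans ((measure_iUnion_le _).trans (ENNReal.tsum_le_tsum fun n => (hU n).2))
  rw [← ENNReal.ofReal_tsum_of_nonneg (fun n => by positivity)
    (summable_geometric_of_lt_one (by norm_num) (by norm_num)), Real.volume_univ] at h1
  exact absurd h1 (by simp)

/-! ### recursion -/

lemma exists_rec {T Y : Type} [Inhabited Y] (r : T → T → Prop) (hr : WellFounded r)
    (Q : T → (T → Y) → Y → Prop)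
    (hcongr : ∀ t f g y, (∀ u, r u t → f u = g u) → Q t f y → Q t g y)
    (hex : ∀ t f, ∃ y, Q t f y) : ∃ f : T → Y, ∀ t, Q t f (f t) := by
  classical
  choose G hG using hex
  let F : T → Y := hr.fix (fun t ih => G t (fun u => if h : r u t then ih u h else default))
  refine ⟨F, fun t => ?_⟩
  have h1 : F t = G t (fun u => if r u t then F u else default) := by
    show hr.fix _ t = _
    rw [hr.fix_eq]
    congr 1
  have h2 := hG t (fun u => if r u t then F u else default)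
  rw [← h1] at h2
  refine hcongr t _ _ _ ?_ h2
  intro u hu
  simp [hu]

/-! ### the selection lemma -/

/-- validity of a code at a stage -/
def Valid (A : Set ℝ) (U : ℕ → ℕ → Set ℝ) : Prop :=
  (∀ n (F : Set ℝ), F.Finite → F ⊆ A → ∃ i, F ⊆ U n i) ∧ ∀ n i, ∃ x ∈ A, x ∉ U n i

/-- a good selection -/
def Good (A : Set ℝ) (U : ℕ → ℕ → Set ℝ) (σ : ℕ → ℕ) : Prop :=
  (∀ m n, m < n → ∃ x ∈ A, x ∈ U n (σ n) ∧ x ∉ U m (σ m)) ∧
  (∀ F : Set ℝ, F.Finite → F ⊆ A → ∀ᶠ k : ℕ in atTop, F ⊆ U (2 * k) (σ (2 * k))) ∧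
  (∀ z : ℝ, ∀ O : Set ℝ, IsOpen O → O.Nonempty → ∀ᶠ k : ℕ in atTop,
    ∃ x ∈ O, x ∈ U (2 * k) (σ (2 * k)) ∧ z - x ∈ U (2 * k + 1) (σ (2 * k + 1)))

lemma finite_net (A : Set ℝ) (hD : Dense A) (O : Set ℝ) (hO : IsOpen O) (hne : O.Nonempty) (R : ℝ) :
    ∃ Q : Set ℝ, Q.Finite ∧ Q ⊆ A ∧ ∀ z, |z| ≤ R → ∃ x ∈ O, z - x ∈ Q := by
  obtain ⟨Q, hQA, hQf, hQ⟩ := (isCompact_Icc (a := -R) (b := R)).elim_finite_subcover_image
    (b := A) (c := fun q => {z | z - q ∈ O})
    (fun q _ => hO.preimage (continuous_id.sub continuous_const)) (by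
      intro z _
      simp only [mem_iUnion]
      have : IsOpen {q | z - q ∈ O} := hO.preimage (continuous_const.sub continuous_id)
      obtain ⟨x, hx⟩ := hne
      obtain ⟨q, hq1, hq2⟩ := hD.inter_open_nonempty _ this ⟨z - x, by simpa using hx⟩
      exact ⟨q, hq2, hq1⟩)
  refine ⟨Q, hQf, hQA, ?_⟩
  intro z hz
  have := hQ (abs_le.mp hz)
  simp only [mem_iUnion] at this
  obtain ⟨q, hq, hzq⟩ := this
  exact ⟨z - q, hzq, by simpa using hq⟩

lemma select (V : ℕ → Set ℝ) (hV : TopologicalSpace.IsTopologicalBasis (range V))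
    (hVne : ∀ j, (V j).Nonempty) (A : Set ℝ) (hA : A.Countable) (hD : Dense A)
    (U : ℕ → ℕ → Set ℝ) (hU : ∀ n i, IsOpen (U n i)) (hval : Valid A U) : ∃ σ, Good A U σ := by
  classical
  obtain ⟨h1, h2⟩ := hval
  obtain ⟨p, hp⟩ := hA.exists_eq_range hD.nonempty
  choose w hwA hwU using h2
  have hVo : ∀ j, IsOpen (V j) := fun j => hV.isOpen ⟨j, rfl⟩
  have hd : ∀ j, ∃ d, d ∈ A ∧ d ∈ V j := by
    intro j
    obtain ⟨d, h3, h4⟩ := hD.inter_open_nonempty _ (hVo j) (hVne j)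
    exact ⟨d, h4, h3⟩
  choose d hdA hdV using hd
  obtain ⟨σ, hσ⟩ := exists_rec (T := ℕ) (Y := ℕ) (· < ·) wellFounded_lt
    (fun n f y => (∀ m < n, w m (f m) ∈ U n y) ∧ (∀ k, n = 2 * k → ∀ j < k, p j ∈ U n y ∧ d j ∈ U n y) ∧
      (∀ k, n = 2 * k + 1 → ∀ z : ℝ, |z| ≤ k → ∀ j < k, d j ∈ U (2 * k) (f (2 * k)) →
        ∃ x ∈ V j, x ∈ U (2 * k) (f (2 * k)) ∧ z - x ∈ U n y))
    (by
      rintro n f g y hfg ⟨q1, q2, q3⟩
      refine ⟨?_, q2, ?_⟩
      · intro m hm; rw [← hfg m hm]; exact q1 m hm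
      · intro k hk
        rw [← hfg (2 * k) (by omega)]
        exact q3 k hk)
    (by
      intro n f
      have hpA : ∀ j, p j ∈ A := fun j => by rw [hp]; exact ⟨j, rfl⟩
      -- the finite set of the odd step
      have hodd : ∃ Q : Set ℝ, Q.Finite ∧ Q ⊆ A ∧ ∀ k, n = 2 * k + 1 → ∀ z : ℝ, |z| ≤ k → ∀ j < k,
          d j ∈ U (2 * k) (f (2 * k)) → ∃ x ∈ V j, x ∈ U (2 * k) (f (2 * k)) ∧ z - x ∈ Q := by
        by_cases hn : ∃ k, n = 2 * k + 1
        · obtain ⟨k, hk⟩ := hn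
          have hq : ∀ j, ∃ Q : Set ℝ, Q.Finite ∧ Q ⊆ A ∧ (d j ∈ U (2 * k) (f (2 * k)) →
              ∀ z : ℝ, |z| ≤ k → ∃ x ∈ V j ∩ U (2 * k) (f (2 * k)), z - x ∈ Q) := by
            intro j
            by_cases hj : d j ∈ U (2 * k) (f (2 * k))
            · obtain ⟨Q, g1, g2, g3⟩ := finite_net A hD (V j ∩ U (2 * k) (f (2 * k)))
                ((hVo j).inter (hU _ _)) ⟨d j, hdV j, hj⟩ k
              exact ⟨Q, g1, g2, fun _ => g3⟩
            · exact ⟨∅, finite_empty, empty_subset _, fun h => absurd h hj⟩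
          choose Q g1 g2 g3 using hq
          refine ⟨⋃ j ∈ Finset.range k, Q j, ?_, ?_, ?_⟩
          · exact Set.Finite.biUnion (Finset.finite_toSet _) fun j _ => g1 j
          · exact iUnion₂_subset fun j _ => g2 j
          · intro k' hk' z hz j hj hdj
            obtain rfl : k' = k := by omega
            obtain ⟨x, hx, hx2⟩ := g3 j hdj z hz
            refine ⟨x, hx.1, hx.2, ?_⟩
            simp only [mem_iUnion]
            exact ⟨j, Finset.mem_range.mpr hj, hx2⟩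
        · exact ⟨∅, finite_empty, empty_subset _, fun k hk => absurd ⟨k, hk⟩ hn⟩
      obtain ⟨Q, hQf, hQA, hQ⟩ := hodd
      obtain ⟨y, hy⟩ := h1 n ((fun m => w m (f m)) '' (Iio n) ∪ p '' (Iio n) ∪ d '' (Iio n) ∪ Q)
        ((((finite_Iio n).image _).union ((finite_Iio n).image _)).union ((finite_Iio n).image _) |>.union
          hQf) (by
          intro x hx
          rcases hx with ((⟨m, -, rfl⟩ | ⟨m, -, rfl⟩) | ⟨m, -, rfl⟩) | hx
          · exact hwA _ _
          · exact hpA m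
          · exact hdA m
          · exact hQA hx)
      refine ⟨y, ?_, ?_, ?_⟩
      · intro m hm
        exact hy (Or.inl (Or.inl (Or.inl ⟨m, hm, rfl⟩)))
      · intro k hk j hj
        exact ⟨hy (Or.inl (Or.inl (Or.inr ⟨j, by simp only [mem_Iio]; omega, rfl⟩))),
          hy (Or.inl (Or.inr ⟨j, by simp only [mem_Iio]; omega, rfl⟩))⟩
      · intro k hk z hz j hj hdj
        obtain ⟨x, hx1, hx2, hx3⟩ := hQ k hk z hz j hj hdj
        exact ⟨x, hx1, hx2, hy (Or.inr hx3)⟩)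
  refine ⟨σ, ?_, ?_, ?_⟩
  · intro m n hmn
    exact ⟨w m (σ m), hwA _ _, (hσ n).1 m hmn, hwU _ _⟩
  · intro F hF hFA
    have : ∀ x ∈ F, ∀ᶠ k : ℕ in atTop, x ∈ U (2 * k) (σ (2 * k)) := by
      intro x hx
      have hxA := hFA hx
      rw [hp] at hxA
      obtain ⟨j, rfl⟩ := hxA
      filter_upwards [eventually_gt_atTop j] with k hk
      exact ((hσ (2 * k)).2.1 k rfl j hk).1
    filter_upwards [(hF.eventually_all).mpr this] with k hk x hx
    exact hk x hx
  · intro z O hO hne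
    obtain ⟨x0, hx0⟩ := hne
    obtain ⟨_, ⟨j, rfl⟩, hxj, hjO⟩ := hV.exists_subset_of_mem_open hx0 hO
    filter_upwards [eventually_gt_atTop j, eventually_ge_atTop ⌈|z|⌉₊] with k hk hk2
    have hz : |z| ≤ k := (Nat.le_ceil _).trans (by exact_mod_cast hk2)
    obtain ⟨x, g1, g2, g3⟩ := (hσ (2 * k + 1)).2.2 k rfl z hz j hk ((hσ (2 * k)).2.1 k rfl j hk).2
    exact ⟨x, hjO g1, g2, g3⟩

/-! ### the recursion -/

/-- the rationals -/
def DD : Set ℝ := range ((↑) : ℚ → ℝ)

/-- the set constructed before stage `t` -/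
def XX {T : Type} (r : T → T → Prop) (z : T → ℝ) (f : T → ℝ) (t : T) : Set ℝ :=
  DD ∪ {y | ∃ u, r u t ∧ (y = f u ∨ y = z u - f u)}

open Classical in
/-- the selection -/
noncomputable def sel (A : Set ℝ) (U : ℕ → ℕ → Set ℝ) : ℕ → ℕ :=
  if h : ∃ σ, Good A U σ then h.choose else fun _ => 0

lemma sel_spec (A : Set ℝ) (U : ℕ → ℕ → Set ℝ) (h : ∃ σ, Good A U σ) : Good A U (sel A U) := by
  unfold sel
  rw [dif_pos h]
  exact h.choose_spec

/-- the `k`-th group -/
def WW (A : Set ℝ) (U : ℕ → ℕ → Set ℝ) (k : ℕ) : Set ℝ :=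
  U (2 * k) (sel A U (2 * k)) ∪ U (2 * k + 1) (sel A U (2 * k + 1))

lemma DD_dense : Dense DD := Rat.denseRange_cast

lemma DD_countable : DD.Countable := countable_range _

lemma XX_countable {T : Type} (r : T → T → Prop) (hc : ∀ t, {u | r u t}.Countable) (z : T → ℝ)
    (f : T → ℝ) (t : T) : (XX r z f t).Countable := by
  apply DD_countable.union
  have : {y | ∃ u, r u t ∧ (y = f u ∨ y = z u - f u)} ⊆
      (f '' {u | r u t}) ∪ ((fun u => z u - f u) '' {u | r u t}) := by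
    rintro y ⟨u, hu, rfl | rfl⟩
    · exact Or.inl ⟨u, hu, rfl⟩
    · exact Or.inr ⟨u, hu, rfl⟩
  exact (((hc t).image _).union ((hc t).image _)).mono this

lemma XX_dense {T : Type} (r : T → T → Prop) (z : T → ℝ)
    (f : T → ℝ) (t : T) : Dense (XX r z f t) := DD_dense.mono subset_union_left

lemma generic (U : ℕ → ℕ → Set ℝ) (hU : ∀ n i, IsOpen (U n i)) (A : Set ℝ) (hg : Good A U (sel A U))
    (K : Set ℕ) (hK : K.Infinite) (z : ℝ) :
    ∀ᶠ y in residual ℝ, {k | k ∈ K ∧ y ∈ WW A U k ∧ z - y ∈ WW A U k}.Infinite := by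
  have hWo : ∀ k, IsOpen (WW A U k) := fun k => (hU _ _).union (hU _ _)
  have h1 : ∀ N : ℕ, ∀ᶠ y in residual ℝ, ∃ k ∈ K, N < k ∧ y ∈ WW A U k ∧ z - y ∈ WW A U k := by
    intro N
    have : {y | ∃ k ∈ K, N < k ∧ y ∈ WW A U k ∧ z - y ∈ WW A U k} =
        ⋃ k ∈ {k | k ∈ K ∧ N < k}, (WW A U k ∩ {y | z - y ∈ WW A U k}) := by
      ext y
      simp only [mem_ofPred_eq, mem_iUnion, mem_inter_iff]
      constructor
      · rintro ⟨k, a, b, c, d⟩; exact ⟨k, ⟨a, b⟩, c, d⟩
      · rintro ⟨k, ⟨a, b⟩, c, d⟩; exact ⟨k, a, b, c, d⟩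
    show {y | ∃ k ∈ K, N < k ∧ y ∈ WW A U k ∧ z - y ∈ WW A U k} ∈ residual ℝ
    rw [this]
    apply residual_of_dense_open
    · exact isOpen_biUnion fun k _ => (hWo k).inter
        ((hWo k).preimage (continuous_const.sub continuous_id))
    · rw [dense_iff_inter_open]
      intro O hO hne
      obtain ⟨M, hM⟩ := eventually_atTop.mp (hg.2.2 z O hO hne)
      obtain ⟨k, hkK, hk⟩ := hK.exists_gt (max N M)
      obtain ⟨x, hx, hx1, hx2⟩ := hM k ((le_max_right _ _).trans hk.le)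
      refine ⟨x, hx, ?_⟩
      simp only [mem_iUnion]
      exact ⟨k, ⟨hkK, lt_of_le_of_lt (le_max_left _ _) hk⟩, Or.inl hx1, Or.inr hx2⟩
  have h2 := eventually_countable_forall.mpr h1
  filter_upwards [h2] with y hy
  apply Set.infinite_of_forall_exists_gt
  intro N
  obtain ⟨k, a, b, c, d⟩ := hy N
  exact ⟨k, ⟨a, c, d⟩, b⟩

/-- main construction -/
lemma construct {T : Type} (r : T → T → Prop) (hwo : IsWellOrder T r)
    (hc : ∀ t, {u | r u t}.Countable) (z : T → ℝ) (U : T → ℕ → ℕ → Set ℝ)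
    (hU : ∀ t n i, IsOpen (U t n i))
    (hsel : ∀ t (A : Set ℝ), A.Countable → Dense A → Valid A (U t) → ∃ σ, Good A (U t) σ) :
    ∃ f : T → ℝ, ∀ s, Valid (XX r z f s) (U s) → ∀ F : Set ℝ, F.Finite →
      F ⊆ DD ∪ {y | ∃ u, y = f u ∨ y = z u - f u} → {k | F ⊆ WW (XX r z f s) (U s) k}.Infinite := by
  classical
  have htr : ∀ a b c, r a b → r b c → r a c := fun a b c => _root_.trans
  obtain ⟨f, hf⟩ := exists_rec (T := T) (Y := ℝ) r hwo.wf
    (fun t f y => ∀ s, (r s t ∨ s = t) → Valid (XX r z f s) (U s) → ∀ F : Set ℝ, F.Finite →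
      F ⊆ XX r z f t → {k | F ⊆ WW (XX r z f s) (U s) k}.Infinite →
      {k | F ⊆ WW (XX r z f s) (U s) k ∧ y ∈ WW (XX r z f s) (U s) k ∧
        z t - y ∈ WW (XX r z f s) (U s) k}.Infinite)
    (by
      intro t f g y hfg h s hs
      have hX : ∀ s, (r s t ∨ s = t) → XX r z g s = XX r z f s := by
        intro s hs
        unfold XX
        congr 1
        ext y
        constructor
        · rintro ⟨u, hu, hy⟩
          have hut : r u t := by
            rcases hs with hs | rfl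
            · exact htr _ _ _ hu hs
            · exact hu
          rw [← hfg u hut] at hy
          exact ⟨u, hu, hy⟩
        · rintro ⟨u, hu, hy⟩
          have hut : r u t := by
            rcases hs with hs | rfl
            · exact htr _ _ _ hu hs
            · exact hu
          rw [hfg u hut] at hy
          exact ⟨u, hu, hy⟩
      rw [hX s hs, hX t (Or.inr rfl)]
      exact h s hs)
    (by
      intro t f
      have hcs : {s | r s t ∨ s = t}.Countable := by
        have : {s | r s t ∨ s = t} = {s | r s t} ∪ {t} := by ext; simp [or_comm]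
        rw [this]
        exact (hc t).union (countable_singleton t)
      have hcF : {F : Set ℝ | F.Finite ∧ F ⊆ XX r z f t}.Countable :=
        countable_ofPred_finite_subset (XX_countable r hc z f t)
      have : ∀ᶠ y in residual ℝ, ∀ s ∈ {s | r s t ∨ s = t}, ∀ F ∈ {F : Set ℝ | F.Finite ∧ F ⊆ XX r z f t},
          Valid (XX r z f s) (U s) → {k | F ⊆ WW (XX r z f s) (U s) k}.Infinite →
          {k | F ⊆ WW (XX r z f s) (U s) k ∧ y ∈ WW (XX r z f s) (U s) k ∧
            z t - y ∈ WW (XX r z f s) (U s) k}.Infinite := by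
        rw [eventually_countable_ball hcs]
        intro s hs
        rw [eventually_countable_ball hcF]
        intro F hF
        by_cases hv : Valid (XX r z f s) (U s)
        · by_cases hi : {k | F ⊆ WW (XX r z f s) (U s) k}.Infinite
          · have hg := sel_spec _ _ (hsel s _ (XX_countable r hc z f s) (XX_dense r z f s) hv)
            filter_upwards [generic (U s) (hU s) _ hg _ hi (z t)] with y hy _ _
            exact hy
          · exact Eventually.of_forall fun y _ h => absurd h hi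
        · exact Eventually.of_forall fun y h => absurd h hv
      obtain ⟨y, hy⟩ := (dense_of_mem_residual this).nonempty
      exact ⟨y, fun s hs hv F hF hFX hi => hy s hs F ⟨hF, hFX⟩ hv hi⟩)
  refine ⟨f, ?_⟩
  intro s hv
  have hg := sel_spec _ _ (hsel s _ (XX_countable r hc z f s) (XX_dense r z f s) hv)
  -- monotonicity
  have hmono : ∀ u t, r u t → XX r z f u ∪ {f u, z u - f u} ⊆ XX r z f t := by
    intro u t hut y hy
    rcases hy with (hy | ⟨v, hv, hy⟩) | hy
    · exact Or.inl hy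
    · exact Or.inr ⟨v, htr _ _ _ hv hut, hy⟩
    · rcases hy with rfl | hy
      · exact Or.inr ⟨u, hut, Or.inl rfl⟩
      · rw [mem_singleton_iff] at hy
        exact Or.inr ⟨u, hut, Or.inr hy⟩
  have hbase : ∀ F : Set ℝ, F.Finite → F ⊆ XX r z f s → {k | F ⊆ WW (XX r z f s) (U s) k}.Infinite := by
    intro F hF hFX
    have h1 := hg.2.1 F hF hFX
    have h2 : ∃ᶠ k : ℕ in atTop, F ⊆ WW (XX r z f s) (U s) k :=
      (h1.mono fun k hk => hk.trans subset_union_left).frequently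
    exact Nat.frequently_atTop_iff_infinite.mp h2
  -- finite subsets of the union of the stages
  have hfin : ∀ (p : T → Prop) (F : Set ℝ), F.Finite → F ⊆ DD ∪ {y | ∃ u, p u ∧ (y = f u ∨ y = z u - f u)} →
      F ⊆ DD ∨ ∃ u, p u ∧ F ⊆ XX r z f u ∪ {f u, z u - f u} := by
    intro p F hF
    induction F, hF using Set.Finite.induction_on with
    | empty => intro _; left; exact empty_subset _
    | @insert a F ha hF ih =>
      intro hsub
      have hFs := ih ((subset_insert _ _).trans hsub)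
      have hins : ∀ G : Set ℝ, a ∈ G → F ⊆ G → insert a F ⊆ G := fun G h1 h2 => insert_subset h1 h2
      rcases hsub (mem_insert a F) with haD | ⟨u, hpu, hau⟩
      · rcases hFs with h1 | ⟨v, hv, h1⟩
        · left; exact hins _ haD h1
        · right; exact ⟨v, hv, hins _ (Or.inl (Or.inl haD)) h1⟩
      · right
        have hau' : a ∈ ({f u, z u - f u} : Set ℝ) := by
          rcases hau with rfl | rfl
          · exact Or.inl rfl
          · exact Or.inr rfl
        rcases hFs with h1 | ⟨v, hv, h1⟩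
        · exact ⟨u, hpu, hins _ (Or.inr hau') (h1.trans (subset_union_left.trans subset_union_left))⟩
        · rcases trichotomous_of r u v with h | h | h
          · exact ⟨v, hv, hins _ (Or.inl (hmono u v h (Or.inr hau'))) h1⟩
          · subst h
            exact ⟨u, hpu, hins _ (Or.inr hau') h1⟩
          · exact ⟨u, hpu, hins _ (Or.inr hau') (h1.trans ((hmono v u h).trans subset_union_left))⟩
  have hstep : ∀ u, (r s u ∨ s = u) → (∀ F : Set ℝ, F.Finite → F ⊆ XX r z f u →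
      {k | F ⊆ WW (XX r z f s) (U s) k}.Infinite) → ∀ F : Set ℝ, F.Finite →
      F ⊆ XX r z f u ∪ {f u, z u - f u} → {k | F ⊆ WW (XX r z f s) (U s) k}.Infinite := by
    intro u hsu hP F hF hFX
    have hF' : (F ∩ XX r z f u).Finite := hF.subset inter_subset_left
    have h1 := hf u s hsu hv (F ∩ XX r z f u) hF' inter_subset_right (hP _ hF' inter_subset_right)
    apply h1.mono
    rintro k ⟨h2, h3, h4⟩ y hy
    rcases hFX hy with h5 | h5
    · exact h2 ⟨hy, h5⟩
    · rcases h5 with rfl | h5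
      · exact h3
      · rw [mem_singleton_iff] at h5
        rw [h5]; exact h4
  have hcase : ∀ u, ((r s u ∨ s = u) → ∀ F : Set ℝ, F.Finite → F ⊆ XX r z f u →
      {k | F ⊆ WW (XX r z f s) (U s) k}.Infinite) → ∀ F : Set ℝ, F.Finite →
      F ⊆ XX r z f u ∪ {f u, z u - f u} → {k | F ⊆ WW (XX r z f s) (U s) k}.Infinite := by
    intro u hP F hF hFX
    rcases trichotomous_of r s u with h | h | h
    · exact hstep u (Or.inl h) (hP (Or.inl h)) F hF hFX
    · exact hstep u (Or.inr h) (hP (Or.inr h)) F hF hFX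
    · exact hbase F hF (hFX.trans (hmono u s h))
  have hDDs : ∀ F : Set ℝ, F.Finite → F ⊆ DD → {k | F ⊆ WW (XX r z f s) (U s) k}.Infinite :=
    fun F hF hFD => hbase F hF (hFD.trans subset_union_left)
  have hind : ∀ t, (r s t ∨ s = t) → ∀ F : Set ℝ, F.Finite → F ⊆ XX r z f t →
      {k | F ⊆ WW (XX r z f s) (U s) k}.Infinite := by
    intro t
    induction t using hwo.wf.induction with
    | _ t ih =>
    intro hst F hF hFX
    rcases hfin (fun u => r u t) F hF hFX with h1 | ⟨u, hut, h1⟩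
    · exact hDDs F hF h1
    · exact hcase u (ih u hut) F hF h1
  intro F hF hFX
  have hFX' : F ⊆ DD ∪ {y | ∃ u, True ∧ (y = f u ∨ y = z u - f u)} := by
    simpa only [true_and] using hFX
  rcases hfin (fun _ => True) F hF hFX' with h1 | ⟨u, -, h1⟩
  · exact hDDs F hF h1
  · exact hcase u (hind u) F hF h1

/-! ### well-ordering under CH, codes -/

lemma wo (T : Type) (h : Cardinal.mk T = Cardinal.aleph 1) :
    ∃ r : T → T → Prop, IsWellOrder T r ∧ ∀ t, {u | r u t}.Countable := by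
  obtain ⟨r, hwo, hr⟩ := Cardinal.exists_ord_eq T
  refine ⟨r, hwo, fun t => ?_⟩
  have := Cardinal.card_typein_lt t hr
  rw [Ordinal.card_typein, h, Cardinal.lt_aleph_one_iff] at this
  exact Cardinal.le_aleph0_iff_set_countable.mp this

/-- codes -/
abbrev TT : Type := (ℕ → ℕ → Set ℕ) × ℝ

lemma mk_TT : Cardinal.mk TT = Cardinal.continuum := by
  have h1 : Cardinal.mk (ℕ → ℕ → Set ℕ) = Cardinal.continuum := by
    rw [Cardinal.mk_arrow, Cardinal.mk_arrow, Cardinal.mk_set]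
    simp
  rw [Cardinal.mk_prod, h1, Cardinal.mk_real]
  simp

/-- open sets from codes -/
def UU (V : ℕ → Set ℝ) (t : TT) (n i : ℕ) : Set ℝ := ⋃ j ∈ t.1 n i, V j

/-- countable ω-subcover -/
lemma countable_sub (V : ℕ → Set ℝ) (hV : TopologicalSpace.IsTopologicalBasis (range V)) (X : Set ℝ)
    (𝒰 : Set (Set X)) (h𝒰 : 𝒰 ∈ Omega X) :
    ∃ u : ℕ → Set X, (∀ i, u i ∈ 𝒰) ∧ ∀ F : Set X, F.Finite → ∃ i, F ⊆ u i := by
  classical
  obtain ⟨h1, h2, h3⟩ := h𝒰
  obtain ⟨e, he⟩ := exists_surjective_nat (Finset ℕ)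
  obtain ⟨U0, hU0, -⟩ := h3 ∅ finite_empty
  let B : Finset ℕ → Set X := fun S => ⋃ j ∈ S, Subtype.val ⁻¹' (V j)
  let g : Finset ℕ → Set X := fun S => if h : ∃ U ∈ 𝒰, B S ⊆ U then h.choose else U0
  refine ⟨fun i => g (e i), ?_, ?_⟩
  · intro i
    simp only [g]
    split_ifs with h
    · exact h.choose_spec.1
    · exact hU0
  · intro F hF
    obtain ⟨U, hU, hFU⟩ := h3 F hF
    have hUo := h1 U hU
    obtain ⟨O, hO, hOU⟩ := isOpen_induced_iff.mp hUo
    have hj : ∀ x : X, x ∈ F → ∃ j, (x : ℝ) ∈ V j ∧ V j ⊆ O := by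
      intro x hx
      have hxO : (x : ℝ) ∈ O := by
        have := hFU hx
        rw [← hOU] at this
        exact this
      obtain ⟨_, ⟨j, rfl⟩, h4, h5⟩ := hV.exists_subset_of_mem_open hxO hO
      exact ⟨j, h4, h5⟩
    choose! j hj1 hj2 using hj
    let S : Finset ℕ := hF.toFinset.image j
    have hFB : F ⊆ B S := by
      intro x hx
      simp only [B, mem_iUnion]
      exact ⟨j x, Finset.mem_image.mpr ⟨x, hF.mem_toFinset.mpr hx, rfl⟩, hj1 x hx⟩
    have hBU : B S ⊆ U := by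
      intro x hx
      simp only [B, mem_iUnion] at hx
      obtain ⟨k, hk, hxk⟩ := hx
      obtain ⟨y, hy, rfl⟩ := Finset.mem_image.mp hk
      rw [← hOU]
      exact hj2 y (hF.mem_toFinset.mp hy) hxk
    obtain ⟨i, hi⟩ := he S
    refine ⟨i, ?_⟩
    have hex : ∃ U ∈ 𝒰, B (e i) ⊆ U := by rw [hi]; exact ⟨U, hU, hBU⟩
    simp only [g]
    rw [dif_pos hex]
    refine hFB.trans ?_
    rw [← hi]
    exact hex.choose_spec.2

/-- core of the construction -/
lemma core (hCH : Cardinal.aleph 1 = Cardinal.continuum.{0}) :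
    ∃ X : Set ℝ, (∀ z : ℝ, ∃ x ∈ X, ∃ y ∈ X, x + y = z) ∧
      ∀ 𝒰 : ℕ → Set (Set X), (∀ n, 𝒰 n ∈ Omega X) → ∃ U : ℕ → Set X, (∀ n, U n ∈ 𝒰 n) ∧
        Function.Injective U ∧ ∀ F : Set X, F.Finite → {k | F ⊆ U (2 * k) ∪ U (2 * k + 1)}.Infinite := by
  classical
  obtain ⟨b, hbc, hbe, hb⟩ := TopologicalSpace.exists_countable_basis ℝ
  have hbne : b.Nonempty := by
    obtain ⟨v, hv, -, -⟩ := hb.exists_subset_of_mem_open (mem_univ (0:ℝ)) isOpen_univ
    exact ⟨v, hv⟩
  obtain ⟨V, rfl⟩ := hbc.exists_eq_range hbne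
  have hVne : ∀ j, (V j).Nonempty := by
    intro j
    rw [Set.nonempty_iff_ne_empty]
    intro h
    exact hbe ⟨j, h⟩
  have hVo : ∀ j, IsOpen (V j) := fun j => hb.isOpen ⟨j, rfl⟩
  obtain ⟨r, hwo, hc⟩ := wo TT (mk_TT.trans hCH.symm)
  have htr : ∀ a b c, r a b → r b c → r a c := fun a b c => _root_.trans
  have hUo : ∀ t n i, IsOpen (UU V t n i) := fun t n i => isOpen_biUnion fun j _ => hVo j
  obtain ⟨f, hf⟩ := construct r hwo hc (fun t : TT => t.2) (UU V) hUo
    (fun t A hA hD hv => select V hb hVne A hA hD (UU V t) (hUo t) hv)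
  set X : Set ℝ := DD ∪ {y | ∃ u : TT, y = f u ∨ y = u.2 - f u} with hX
  refine ⟨X, ?_, ?_⟩
  · intro z
    refine ⟨f (fun _ _ => ∅, z), Or.inr ⟨_, Or.inl rfl⟩, z - f (fun _ _ => ∅, z),
      Or.inr ⟨(fun _ _ => ∅, z), Or.inr rfl⟩, by ring⟩
  · intro 𝒰 h𝒰
    choose u hu1 hu2 using fun n => countable_sub V hb X (𝒰 n) (h𝒰 n)
    -- witnesses
    have hw : ∀ n i, ∃ x : X, x ∉ u n i := by
      intro n i
      by_contra hcon
      push Not at hcon
      apply (h𝒰 n).2.1
      have : u n i = univ := eq_univ_of_forall hcon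
      rw [← this]
      exact hu1 n i
    choose w hw using hw
    -- stage containing the witnesses
    have hst : ∀ x : X, ∃ s : TT, ∀ t, r s t → (x : ℝ) ∈ XX r (fun t : TT => t.2) f t := by
      rintro ⟨x, hx⟩
      rcases hx with hx | ⟨s, hs⟩
      · exact ⟨(fun _ _ => ∅, 0), fun t _ => Or.inl hx⟩
      · exact ⟨s, fun t ht => Or.inr ⟨s, ht, hs⟩⟩
    choose st hst using hst
    let c : ℕ → ℕ → Set ℕ := fun n i => {j | (Subtype.val ⁻¹' (V j) : Set X) ⊆ u n i}
    have hz : ∃ z : ℝ, ∀ n i, r (st (w n i)) (c, z) := by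
      by_contra hcon
      push Not at hcon
      have hsub : (univ : Set ℝ) ⊆ ⋃ n, ⋃ i, {z | ¬ r (st (w n i)) (c, z)} := by
        intro z _
        simp only [mem_iUnion]
        exact hcon z
      have hcount : ∀ n i, {z : ℝ | ¬ r (st (w n i)) (c, z)}.Countable := by
        intro n i
        have h1 : ({s | r s (st (w n i))} ∪ {st (w n i)}).Countable :=
          (hc _).union (countable_singleton _)
        have h2 : {z : ℝ | ¬ r (st (w n i)) (c, z)} ⊆
            (fun z : ℝ => ((c, z) : TT)) ⁻¹' ({s | r s (st (w n i))} ∪ {st (w n i)}) := by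
          intro z hz
          rcases trichotomous_of r (st (w n i)) (c, z) with h | h | h
          · exact absurd h hz
          · right; exact h.symm
          · left; exact h
        refine (h1.preimage_of_injOn ?_).mono h2
        intro a _ b _ hab
        exact (Prod.mk.injEq _ _ _ _ ▸ hab).2
      have : (univ : Set ℝ).Countable := (countable_iUnion fun n => countable_iUnion fun i => hcount n i).mono hsub
      exact Cardinal.not_countable_real this
    obtain ⟨z, hz⟩ := hz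
    set t : TT := (c, z) with ht
    -- the coded sets
    have hcode : ∀ n i, (Subtype.val ⁻¹' (UU V t n i) : Set X) = u n i := by
      intro n i
      apply Subset.antisymm
      · intro x hx
        simp only [UU, mem_preimage, mem_iUnion] at hx
        obtain ⟨j, hj, hxj⟩ := hx
        exact hj hxj
      · intro x hx
        obtain ⟨O, hO, hOU⟩ := isOpen_induced_iff.mp ((h𝒰 n).1 _ (hu1 n i))
        have hxO : (x : ℝ) ∈ O := by
          rw [← hOU] at hx
          exact hx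
        obtain ⟨_, ⟨j, rfl⟩, h4, h5⟩ := hb.exists_subset_of_mem_open hxO hO
        simp only [UU, mem_preimage, mem_iUnion]
        refine ⟨j, ?_, h4⟩
        show (Subtype.val ⁻¹' (V j) : Set X) ⊆ u n i
        rw [← hOU]
        exact preimage_mono h5
    have hXt : XX r (fun t : TT => t.2) f t ⊆ X := by
      rintro y (hy | ⟨s, -, hy⟩)
      · exact Or.inl hy
      · exact Or.inr ⟨s, hy⟩
    have hvalid : Valid (XX r (fun t : TT => t.2) f t) (UU V t) := by
      constructor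
      · intro n F hF hFX
        obtain ⟨i, hi⟩ := hu2 n (Subtype.val ⁻¹' F) (hF.preimage Subtype.val_injective.injOn)
        refine ⟨i, ?_⟩
        intro y hy
        have hyX : y ∈ X := hXt (hFX hy)
        have : (⟨y, hyX⟩ : X) ∈ u n i := hi hy
        rw [← hcode] at this
        exact this
      · intro n i
        refine ⟨w n i, hst _ t (hz n i), ?_⟩
        intro hcon
        apply hw n i
        rw [← hcode]
        exact hcon
    have hgood := sel_spec _ _ (select V hb hVne _ (XX_countable r hc _ f t) (XX_dense r _ f t) (UU V t)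
      (hUo t) hvalid)
    set σ := sel (XX r (fun t : TT => t.2) f t) (UU V t) with hσ
    refine ⟨fun n => u n (σ n), fun n => hu1 n _, ?_, ?_⟩
    · have key : ∀ m n, m < n → u m (σ m) ≠ u n (σ n) := by
        intro m n hmn heq
        obtain ⟨x, hxA, hx1, hx2⟩ := hgood.1 m n hmn
        rw [← hcode, ← hcode] at heq
        apply hx2
        have h1 : (⟨x, hXt hxA⟩ : X) ∈ (Subtype.val ⁻¹' (UU V t n (σ n)) : Set X) := hx1
        rw [← heq] at h1
        exact h1
      intro m n hmn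
      rcases lt_trichotomy m n with h | h | h
      · exact absurd hmn (key m n h)
      · exact h
      · exact absurd hmn.symm (key n m h)
    · intro F hF
      have h1 := hf t hvalid (Subtype.val '' F) (hF.image _) (by
        rintro _ ⟨x, -, rfl⟩
        exact x.2)
      apply h1.mono
      intro k hk x hx
      have h2 := hk ⟨x, hx, rfl⟩
      simp only
      rw [← hcode, ← hcode]
      exact h2

/-! ### partitions into blocks -/

lemma block_unique (b : ℕ → ℕ) (hb : StrictMono b) {m n j : ℕ} (h1 : b m ≤ j) (h2 : j < b (m + 1))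
    (h3 : b n ≤ j) (h4 : j < b (n + 1)) : m = n := by
  rcases lt_trichotomy m n with h | h | h
  · have := hb.monotone (show m + 1 ≤ n from h); omega
  · exact h
  · have := hb.monotone (show n + 1 ≤ m from h); omega

lemma block_exists (b : ℕ → ℕ) (hb : StrictMono b) (hb0 : b 0 = 0) (j : ℕ) :
    ∃ n, b n ≤ j ∧ j < b (n + 1) := by
  have hex : ∃ n, j < b (n + 1) := ⟨j, lt_of_lt_of_le (Nat.lt_succ_self j) (hb.id_le (j + 1))⟩
  classical
  refine ⟨Nat.find hex, ?_, Nat.find_spec hex⟩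
  rcases Nat.eq_zero_or_pos (Nat.find hex) with h | h
  · rw [h, hb0]; exact Nat.zero_le _
  · have := Nat.find_min hex (m := Nat.find hex - 1) (by omega)
    rw [Nat.sub_add_cancel h] at this
    omega

/-- partition of a family into countably many finite nonempty pairwise disjoint parts -/
def IsPartition {X : Type} (𝒰 : Set (Set X)) (𝓕 : ℕ → Set (Set X)) : Prop :=
  (∀ n, (𝓕 n).Finite ∧ (𝓕 n).Nonempty) ∧ (∀ m n, m ≠ n → Disjoint (𝓕 m) (𝓕 n)) ∧ (⋃ n, 𝓕 n) = 𝒰

lemma block_partition {X : Type} (U : ℕ → Set X) (hU : Function.Injective U) (b : ℕ → ℕ)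
    (hb : StrictMono b) (hb0 : b 0 = 0) :
    IsPartition (range U) (fun n => U '' (Ico (b n) (b (n + 1)))) := by
  refine ⟨fun n => ⟨(finite_Ico _ _).image _, ⟨U (b n), b n, ⟨le_refl _, hb (Nat.lt_succ_self n)⟩, rfl⟩⟩,
    ?_, ?_⟩
  · intro m n hmn
    rw [Set.disjoint_left]
    rintro _ ⟨i, hi, rfl⟩ ⟨j, hj, hij⟩
    rw [hU hij] at hj
    exact hmn (block_unique b hb hi.1 hi.2 hj.1 hj.2)
  · ext v
    simp only [mem_iUnion, mem_range]
    constructor
    · rintro ⟨n, j, -, rfl⟩; exact ⟨j, rfl⟩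
    · rintro ⟨j, rfl⟩
      obtain ⟨n, h1, h2⟩ := block_exists b hb hb0 j
      exact ⟨n, j, ⟨h1, h2⟩, rfl⟩

/-- ω-groupable open covers: the open covers that can be partitioned into finite sets `𝓕 n` such that
the sequence of the unions `⋃₀ 𝓕 n` is an ω-cover. -/
def OmegaGp (X : Type) [TopologicalSpace X] : Set (Set (Set X)) :=
  {𝒰 | (∀ U ∈ 𝒰, IsOpen U) ∧ ⋃₀ 𝒰 = univ ∧ ∃ 𝓕 : ℕ → Set (Set X), IsPartition 𝒰 𝓕 ∧
    ∀ F : Set X, F.Finite → ∃ n, F ⊆ ⋃₀ 𝓕 n}

lemma pair_union {X : Type} (U : ℕ → Set X) (k : ℕ) :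
    ⋃₀ (U '' (Ico (2 * k) (2 * k + 2))) = U (2 * k) ∪ U (2 * k + 1) := by
  ext x
  simp only [mem_sUnion, mem_image, mem_Ico, exists_exists_and_eq_and, mem_union]
  constructor
  · rintro ⟨j, ⟨h1, h2⟩, hx⟩
    rcases (show j = 2 * k ∨ j = 2 * k + 1 by omega) with rfl | rfl
    · exact Or.inl hx
    · exact Or.inr hx
  · rintro (hx | hx)
    · exact ⟨2 * k, ⟨le_refl _, by omega⟩, hx⟩
    · exact ⟨2 * k + 1, ⟨by omega, by omega⟩, hx⟩

lemma to_gp (X : Set ℝ) (𝒰 : ℕ → Set (Set X)) (h𝒰 : ∀ n, 𝒰 n ∈ Omega X) (U : ℕ → Set X)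
    (hU : ∀ n, U n ∈ 𝒰 n) (hinj : Function.Injective U)
    (hF : ∀ F : Set X, F.Finite → {k | F ⊆ U (2 * k) ∪ U (2 * k + 1)}.Infinite) :
    range U ∈ OmegaGp X := by
  refine ⟨?_, ?_, fun n => U '' (Ico (2 * n) (2 * (n + 1))), ?_, ?_⟩
  · rintro _ ⟨n, rfl⟩
    exact (h𝒰 n).1 _ (hU n)
  · rw [eq_univ_iff_forall]
    intro x
    obtain ⟨k, hk⟩ := (hF {x} (finite_singleton x)).nonempty
    rcases hk (mem_singleton x) with h | h
    · exact ⟨_, ⟨_, rfl⟩, h⟩
    · exact ⟨_, ⟨_, rfl⟩, h⟩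
  · exact block_partition U hinj (fun n => 2 * n) (fun a b h => by simp only; omega) rfl
  · intro F hFf
    obtain ⟨k, hk⟩ := (hF F hFf).nonempty
    refine ⟨k, ?_⟩
    show F ⊆ ⋃₀ (U '' Ico (2 * k) (2 * k + 2))
    rw [pair_union]
    exact hk

/-- Main theorem, version of MP_82c070. -/
theorem main1 (hCH : Cardinal.aleph 1 = Cardinal.continuum.{0}) :
    ∃ X : Set ℝ, S1 (Omega X) (OmegaGp X) ∧ ¬ S1 (Omega X) (Omega X) := by
  obtain ⟨X, h1, h2⟩ := core hCH
  refine ⟨X, ?_, not_S1 X h1⟩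
  intro 𝒰 h𝒰
  obtain ⟨U, g1, g2, g3⟩ := h2 𝒰 h𝒰
  exact ⟨U, g1, to_gp X 𝒰 h𝒰 U g1 g2 g3⟩

/-! ### version of MP_ef066b -/

/-- open covers; by convention the space itself is not a member -/
def OpenCovers (X : Type) [TopologicalSpace X] : Set (Set (Set X)) :=
  {𝒰 | (∀ U ∈ 𝒰, IsOpen U) ∧ univ ∉ 𝒰 ∧ ⋃₀ 𝒰 = univ}

/-- open ω-covers -/
def OmegaCovers (X : Type) [TopologicalSpace X] : Set (Set (Set X)) :=
  {𝒰 | 𝒰 ∈ OpenCovers X ∧ ∀ F : Set X, F.Finite → ∃ U ∈ 𝒰, F ⊆ U}

lemma omega_eq (X : Type) [TopologicalSpace X] : OmegaCovers X = Omega X := by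
  ext 𝒰
  constructor
  · rintro ⟨⟨h1, h2, -⟩, h3⟩; exact ⟨h1, h2, h3⟩
  · rintro ⟨h1, h2, h3⟩
    refine ⟨⟨h1, h2, ?_⟩, h3⟩
    rw [eq_univ_iff_forall]
    intro x
    obtain ⟨U, hU, hx⟩ := h3 {x} (finite_singleton x)
    exact ⟨U, hU, hx rfl⟩

/-- multifinite families: they can be partitioned into infinitely many finite covers -/
def Multifinite {X : Type} (𝒰 : Set (Set X)) : Prop :=
  ∃ 𝓕 : ℕ → Set (Set X), IsPartition 𝒰 𝓕 ∧ ∀ n, ⋃₀ 𝓕 n = univ

/-- ω-groupable open covers -/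
def OmegaGroupable (X : Type) [TopologicalSpace X] : Set (Set (Set X)) :=
  {𝒰 | 𝒰 ∈ OpenCovers X ∧ (Multifinite 𝒰 ∨
    ∃ 𝓕 : ℕ → Set (Set X), IsPartition 𝒰 𝓕 ∧ Set.range (fun n => ⋃₀ 𝓕 n) ∈ OmegaCovers X)}

lemma to_groupable (X : Set ℝ) (𝒰 : ℕ → Set (Set X)) (h𝒰 : ∀ n, 𝒰 n ∈ Omega X) (U : ℕ → Set X)
    (hU : ∀ n, U n ∈ 𝒰 n) (hinj : Function.Injective U)
    (hF : ∀ F : Set X, F.Finite → {k | F ⊆ U (2 * k) ∪ U (2 * k + 1)}.Infinite) :
    range U ∈ OmegaGroupable X := by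
  classical
  have hopen : ∀ n, IsOpen (U n) := fun n => (h𝒰 n).1 _ (hU n)
  have hne : ∀ n, U n ≠ univ := fun n h => (h𝒰 n).2.1 (h ▸ hU n)
  refine ⟨⟨?_, ?_, (to_gp X 𝒰 h𝒰 U hU hinj hF).2.1⟩, ?_⟩
  · rintro _ ⟨n, rfl⟩; exact hopen n
  · rintro ⟨n, hn⟩; exact hne n hn
  by_cases hK : {k | U (2 * k) ∪ U (2 * k + 1) = univ}.Infinite
  · left
    -- blocks ending at the pairs covering the space
    let e : ℕ → ℕ := Nat.nth (fun k => U (2 * k) ∪ U (2 * k + 1) = univ)
    have he : StrictMono e := Nat.nth_strictMono hK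
    have heU : ∀ n, U (2 * e n) ∪ U (2 * e n + 1) = univ := fun n => Nat.nth_mem_of_infinite hK n
    let b : ℕ → ℕ := fun n => match n with
      | 0 => 0
      | n + 1 => 2 * e n + 2
    have hbm : StrictMono b := by
      apply strictMono_nat_of_lt_succ
      intro n
      cases n with
      | zero => simp only [b]; omega
      | succ n =>
        simp only [b]
        have : e n < e (n + 1) := he (Nat.lt_succ_self n)
        omega
    refine ⟨fun n => U '' (Ico (b n) (b (n + 1))), block_partition U hinj b hbm rfl, ?_⟩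
    intro n
    rw [eq_univ_iff_forall]
    intro x
    have hbn : b n ≤ 2 * e n := by
      cases n with
      | zero => exact Nat.zero_le _
      | succ n =>
        simp only [b]
        have : e n < e (n + 1) := he (Nat.lt_succ_self n)
        omega
    have hbn1 : b (n + 1) = 2 * e n + 2 := rfl
    have hx : x ∈ U (2 * e n) ∪ U (2 * e n + 1) := by rw [heU n]; trivial
    rcases hx with hx | hx
    · exact ⟨_, ⟨2 * e n, ⟨hbn, by omega⟩, rfl⟩, hx⟩
    · exact ⟨_, ⟨2 * e n + 1, ⟨by omega, by omega⟩, rfl⟩, hx⟩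
  · right
    rw [Set.not_infinite] at hK
    obtain ⟨N, hN⟩ : ∃ N, ∀ k, N ≤ k → U (2 * k) ∪ U (2 * k + 1) ≠ univ := by
      obtain ⟨M, hM⟩ := hK.bddAbove
      refine ⟨M + 1, fun k hk h => ?_⟩
      have := hM h
      omega
    let b : ℕ → ℕ := fun n => if n < 2 * N then n else 2 * N + 2 * (n - 2 * N)
    have hbm : StrictMono b := by
      apply strictMono_nat_of_lt_succ
      intro n
      simp only [b]
      split_ifs <;> omega
    refine ⟨fun n => U '' (Ico (b n) (b (n + 1))), block_partition U hinj b hbm (by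
      simp only [b]; split_ifs <;> omega), ?_⟩
    have hsmall : ∀ n, n < 2 * N → ⋃₀ (U '' (Ico (b n) (b (n + 1)))) = U n := by
      intro n hn
      have h1 : b n = n := by simp only [b]; rw [if_pos hn]
      have h2 : b (n + 1) = n + 1 := by simp only [b]; split_ifs <;> omega
      rw [h1, h2]
      ext x
      simp only [mem_sUnion, mem_image, mem_Ico, exists_exists_and_eq_and]
      constructor
      · rintro ⟨j, ⟨h3, h4⟩, hx⟩
        obtain rfl : j = n := by omega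
        exact hx
      · intro hx
        exact ⟨n, ⟨le_refl _, by omega⟩, hx⟩
    have hbig : ∀ k, N ≤ k → ⋃₀ (U '' (Ico (b (k + N)) (b (k + N + 1)))) = U (2 * k) ∪ U (2 * k + 1) := by
      intro k hk
      have h1 : b (k + N) = 2 * k := by simp only [b]; split_ifs <;> omega
      have h2 : b (k + N + 1) = 2 * k + 2 := by simp only [b]; split_ifs <;> omega
      rw [h1, h2, pair_union]
    rw [omega_eq]
    refine ⟨?_, ?_, ?_⟩
    · rintro _ ⟨n, rfl⟩
      apply isOpen_sUnion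
      rintro _ ⟨j, -, rfl⟩
      exact hopen j
    · rintro ⟨n, hn⟩
      simp only at hn
      rcases Nat.lt_or_ge n (2 * N) with h | h
      · rw [hsmall n h] at hn
        exact hne n hn
      · have := hbig (n - N) (by omega)
        rw [show n - N + N = n by omega] at this
        rw [this] at hn
        exact hN (n - N) (by omega) hn
    · intro F hFf
      obtain ⟨k, hk, hkN⟩ := (hF F hFf).exists_gt N
      refine ⟨_, ⟨k + N, rfl⟩, ?_⟩
      simp only
      rw [hbig k hkN.le]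
      exact hk

/-- Main theorem, version of MP_ef066b. -/
theorem main2 (hCH : Cardinal.aleph 1 = Cardinal.continuum.{0}) :
    ∃ X : Set ℝ, S1 (OmegaCovers X) (OmegaGroupable X) ∧ ¬ S1 (OmegaCovers X) (OmegaCovers X) := by
  obtain ⟨X, h1, h2⟩ := core hCH
  refine ⟨X, ?_, ?_⟩
  · intro 𝒰 h𝒰
    have h𝒰' : ∀ n, 𝒰 n ∈ Omega X := fun n => by rw [← omega_eq]; exact h𝒰 n
    obtain ⟨U, g1, g2, g3⟩ := h2 𝒰 h𝒰'
    exact ⟨U, g1, to_groupable X 𝒰 h𝒰' U g1 g2 g3⟩
  · rw [omega_eq]; exact not_S1 X h1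

/-! ### the other direction, under the Borel conjecture -/

/-- strong measure zero sets of reals -/
def StrongMeasureZero (Y : Set ℝ) : Prop :=
  ∀ ε : ℕ → ℝ, (∀ n, 0 < ε n) → ∃ a : ℕ → ℝ, Y ⊆ ⋃ n, Icc (a n) (a n + ε n)

lemma smz (X : Set ℝ) (B : Set (Set (Set X))) (hB : ∀ 𝒰 ∈ B, ⋃₀ 𝒰 = univ) (h : S1 (Omega X) B) :
    StrongMeasureZero X := by
  intro ε hε
  by_contra hno
  obtain ⟨U, hU, hU2⟩ := h (fun k => {U : Set X | IsOpen U ∧ ∃ m : ℕ, ∃ a : ℕ → ℝ,
    ∀ x ∈ U, ∃ i < m, (x : ℝ) ∈ Icc (a i) (a i + ε (Nat.pair k i))}) (by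
    intro k
    refine ⟨fun U hU => hU.1, ?_, ?_⟩
    · rintro ⟨-, m, a, ha⟩
      apply hno
      refine ⟨fun n => a (Nat.unpair n).2, ?_⟩
      intro x hx
      obtain ⟨i, -, hi⟩ := ha ⟨x, hx⟩ trivial
      rw [mem_iUnion]
      refine ⟨Nat.pair k i, ?_⟩
      simpa only [Nat.unpair_pair] using hi
    · intro F hF
      classical
      obtain ⟨L, hL⟩ : ∃ L : List X, ∀ x ∈ F, x ∈ L :=
        ⟨hF.toFinset.toList, fun x hx => by simp [hx]⟩
      let g : ℕ → ℝ := fun i => (L[i]?.map (fun x : X => (x : ℝ))).getD 0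
      refine ⟨Subtype.val ⁻¹' (⋃ i ∈ Finset.range L.length,
        Ioo (g i - ε (Nat.pair k i) / 2) (g i + ε (Nat.pair k i) / 2)), ⟨?_, L.length,
          fun i => g i - ε (Nat.pair k i) / 2, ?_⟩, ?_⟩
      · exact (isOpen_biUnion fun i _ => isOpen_Ioo).preimage continuous_subtype_val
      · intro x hx
        simp only [mem_preimage, mem_iUnion, Finset.mem_range] at hx
        obtain ⟨i, hi, hx1, hx2⟩ := hx
        exact ⟨i, hi, hx1.le, by linarith⟩
      · intro x hx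
        obtain ⟨i, hi, hix⟩ := List.getElem_of_mem (hL x hx)
        simp only [mem_preimage, mem_iUnion, Finset.mem_range]
        refine ⟨i, hi, ?_⟩
        have hg : g i = x := by
          simp only [g]
          rw [List.getElem?_eq_getElem hi, hix]
          rfl
        rw [hg]
        have := hε (Nat.pair k i)
        constructor <;> linarith)
  apply hno
  choose m a ha using fun k => (hU k).2
  refine ⟨fun n => a (Nat.unpair n).1 (Nat.unpair n).2, ?_⟩
  intro x hx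
  have h1 : (⟨x, hx⟩ : X) ∈ ⋃₀ range U := by rw [hB _ hU2]; trivial
  obtain ⟨_, ⟨k, rfl⟩, hxk⟩ := h1
  obtain ⟨i, -, hi⟩ := ha k _ hxk
  rw [mem_iUnion]
  refine ⟨Nat.pair k i, ?_⟩
  simpa only [Nat.unpair_pair] using hi

lemma S1_of_countable (X : Set ℝ) (hX : X.Countable) : S1 (Omega X) (Omega X) := by
  intro 𝒰 h𝒰
  have : Countable X := hX.to_subtype
  have hc : {F : Set X | F.Finite}.Countable := by
    have := Set.countable_ofPred_finite_subset (s := (univ : Set X)) (to_countable _)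
    refine this.mono ?_
    intro F hF
    exact ⟨hF, subset_univ _⟩
  obtain ⟨E, hE⟩ := hc.exists_eq_range ⟨∅, finite_empty⟩
  have hEf : ∀ n, (E n).Finite := by
    intro n
    have : E n ∈ {F : Set X | F.Finite} := by rw [hE]; exact ⟨n, rfl⟩
    exact this
  choose U hU hEU using fun n => (h𝒰 n).2.2 (E n) (hEf n)
  refine ⟨U, hU, ?_, ?_, ?_⟩
  · rintro _ ⟨n, rfl⟩; exact (h𝒰 n).1 _ (hU n)
  · rintro ⟨n, hn⟩; exact (h𝒰 n).2.1 (hn ▸ hU n)
  · intro F hF
    have : F ∈ {F : Set X | F.Finite} := hF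
    rw [hE] at this
    obtain ⟨n, rfl⟩ := this
    exact ⟨_, ⟨n, rfl⟩, hEU n⟩

lemma omega_infinite (X : Type) [TopologicalSpace X] (𝒰 : Set (Set X)) (h : 𝒰 ∈ Omega X) :
    𝒰.Infinite := by
  intro hfin
  have hw : ∀ U : Set X, U ∈ 𝒰 → ∃ x, x ∉ U := by
    intro U hU
    by_contra hcon
    push Not at hcon
    exact h.2.1 (eq_univ_of_forall hcon ▸ hU)
  choose w hw using hw
  obtain ⟨U, hU, hFU⟩ := h.2.2 {x | ∃ (U : Set X) (hU : U ∈ 𝒰), x = w U hU} (by
    have : {x | ∃ (U : Set X) (hU : U ∈ 𝒰), x = w U hU} = ⋃ U : 𝒰, {w U.1 U.2} := by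
      ext x
      simp only [mem_iUnion, mem_singleton_iff, Subtype.exists]
      rfl
    rw [this]
    have := hfin.to_subtype
    exact finite_iUnion fun _ => finite_singleton _)
  exact hw U hU (hFU ⟨U, hU, rfl⟩)

lemma singleton_partition (X : Type) [TopologicalSpace X] (U : ℕ → Set X) (h : range U ∈ Omega X) :
    ∃ g : ℕ → Set X, range g = range U ∧ IsPartition (range U) (fun n => {g n}) := by
  have hinf := (omega_infinite X _ h).to_subtype
  have hc := (countable_range U).to_subtype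
  obtain ⟨hd⟩ := nonempty_denumerable (range U)
  let e := Denumerable.eqv (range U)
  have hg : range (fun n => (e.symm n : Set X)) = range U := by
    ext V
    constructor
    · rintro ⟨n, rfl⟩; exact (e.symm n).2
    · intro hV
      exact ⟨e ⟨V, hV⟩, by simp⟩
  refine ⟨fun n => (e.symm n : Set X), hg, ?_, ?_, ?_⟩
  · intro n; exact ⟨finite_singleton _, singleton_nonempty _⟩
  · intro m n hmn
    rw [Set.disjoint_singleton]
    intro heq
    exact hmn (e.symm.injective (Subtype.ext heq))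
  · rw [iUnion_singleton_eq_range]
    exact hg

lemma S1_gp_of_S1 (X : Set ℝ) (h : S1 (Omega X) (Omega X)) : S1 (Omega X) (OmegaGp X) := by
  intro 𝒰 h𝒰
  obtain ⟨U, hU, hU2⟩ := h 𝒰 h𝒰
  refine ⟨U, hU, hU2.1, ?_, ?_⟩
  · have := (omega_eq X) ▸ hU2
    exact this.1.2.2
  · obtain ⟨g, hg, hpart⟩ := singleton_partition X U hU2
    refine ⟨_, hpart, ?_⟩
    intro F hF
    obtain ⟨V, hV, hFV⟩ := hU2.2.2 F hF
    rw [← hg] at hV
    obtain ⟨n, rfl⟩ := hV
    exact ⟨n, by simpa using hFV⟩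

lemma S1_groupable_of_S1 (X : Set ℝ) (h : S1 (OmegaCovers X) (OmegaCovers X)) :
    S1 (OmegaCovers X) (OmegaGroupable X) := by
  intro 𝒰 h𝒰
  obtain ⟨U, hU, hU2⟩ := h 𝒰 h𝒰
  refine ⟨U, hU, hU2.1, Or.inr ?_⟩
  obtain ⟨g, hg, hpart⟩ := singleton_partition X U (omega_eq X ▸ hU2)
  refine ⟨_, hpart, ?_⟩
  have : (fun n => ⋃₀ ({g n} : Set (Set X))) = g := by
    ext1 n; simp
  rw [this, hg]
  exact hU2

theorem main1_BC (hBC : ∀ Y : Set ℝ, StrongMeasureZero Y → Y.Countable) (X : Set ℝ) :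
    S1 (Omega X) (OmegaGp X) ↔ S1 (Omega X) (Omega X) :=
  ⟨fun h => S1_of_countable X (hBC X (smz X _ (fun _ h => h.2.1) h)), S1_gp_of_S1 X⟩

theorem main2_BC (hBC : ∀ Y : Set ℝ, StrongMeasureZero Y → Y.Countable) (X : Set ℝ) :
    S1 (OmegaCovers X) (OmegaGroupable X) ↔ S1 (OmegaCovers X) (OmegaCovers X) := by
  refine ⟨fun h => ?_, S1_groupable_of_S1 X⟩
  have h1 : S1 (Omega X) (OmegaGroupable X) := omega_eq X ▸ h
  have h2 := S1_of_countable X (hBC X (smz X _ (fun _ h => h.1.2.2) h1))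
  rw [omega_eq]
  exact h2

end Pool.Agent.Helper249.Ogp
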