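import Mathlib
import Pool.Agent.Helper249.PNT

set_option autoImplicit false
open Filter Topology Finset Pool.Agent.Helper249
open scoped Classical

namespace Pool.Agent.Helper249.Ruzsa

noncomputable section

/-- remainder of `x/d` -/
lemma mult_count (x : ℝ) (hx : 0 ≤ x) (d : ℕ) :
    (∑ n ∈ Ioc 0 ⌊x⌋₊, if d ∣ n then (1:ℝ) else 0) = (⌊x / d⌋₊ : ℝ) := by
  rw [Nat.floor_div_natCast, ← Nat.Ioc_filter_dvd_card_eq_div ⌊x⌋₊ d]
  rw [Finset.sum_ite, Finset.sum_const_zero, add_zero, Finset.sum_const, nsmul_eq_mul, mul_one]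

/-- the additive function in the Turan-Kubilius inequality -/
def ee (p n : ℕ) : ℝ := (if p ∣ n then 1 else 0) - 1 / p

lemma ee_diag (x : ℝ) (hx : 0 < x) (p : ℕ) (hp : p.Prime) :
    ∑ n ∈ Ioc 0 ⌊x⌋₊, ee p n * ee p n ≤ x / p := by
  have hp2 : (2:ℝ) ≤ p := by exact_mod_cast hp.two_le
  have hp0 : (0:ℝ) < p := by linarith
  have e1 : ∀ n ∈ Ioc 0 ⌊x⌋₊, ee p n * ee p n
      = (1 - 2 / p) * (if p ∣ n then (1:ℝ) else 0) + 1 / p ^ 2 := by
    intro n _
    unfold ee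
    split_ifs <;> field_simp <;> ring
  rw [Finset.sum_congr rfl e1, Finset.sum_add_distrib, ← Finset.mul_sum, mult_count x hx.le,
    Finset.sum_const, Nat.card_Ioc, nsmul_eq_mul]
  have h1 : (⌊x / p⌋₊ : ℝ) ≤ x / p := Nat.floor_le (by positivity)
  have h2 : (⌊x⌋₊ : ℝ) ≤ x := Nat.floor_le hx.le
  have h3 : (0:ℝ) ≤ 1 - 2 / p := by
    rw [sub_nonneg, div_le_one hp0]; exact hp2
  have h4 : (1 - 2 / p) * (⌊x / p⌋₊ : ℝ) ≤ (1 - 2 / p) * (x / p) :=
    mul_le_mul_of_nonneg_left h1 h3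
  have h5 : (((⌊x⌋₊ - 0 : ℕ)) : ℝ) * (1 / (p:ℝ) ^ 2) ≤ x * (1 / (p:ℝ) ^ 2) := by
    rw [Nat.sub_zero]
    exact mul_le_mul_of_nonneg_right h2 (by positivity)
  have h6 : (1 - 2 / (p:ℝ)) * (x / p) + x * (1 / (p:ℝ) ^ 2) = x / p - x / p ^ 2 := by
    field_simp; ring
  have h7 : 0 ≤ x / (p:ℝ) ^ 2 := by positivity
  linarith

lemma ee_off (x : ℝ) (hx : 0 < x) (p q : ℕ) (hp : p.Prime) (hq : q.Prime) (hpq : p ≠ q) :
    |∑ n ∈ Ioc 0 ⌊x⌋₊, ee p n * ee q n| ≤ 2 := by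
  have hp2 : (2:ℝ) ≤ p := by exact_mod_cast hp.two_le
  have hp0 : (0:ℝ) < p := by linarith
  have hq2 : (2:ℝ) ≤ q := by exact_mod_cast hq.two_le
  have hq0 : (0:ℝ) < q := by linarith
  have hcop : Nat.Coprime p q := (Nat.coprime_primes hp hq).mpr hpq
  have e1 : ∀ n ∈ Ioc 0 ⌊x⌋₊, ee p n * ee q n
      = (if p * q ∣ n then (1:ℝ) else 0) - (1 / q) * (if p ∣ n then (1:ℝ) else 0)
        - (1 / p) * (if q ∣ n then (1:ℝ) else 0) + 1 / (p * q) := by
    intro n _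
    have hd : p * q ∣ n ↔ p ∣ n ∧ q ∣ n :=
      ⟨fun h => ⟨dvd_trans (dvd_mul_right _ _) h, dvd_trans (dvd_mul_left _ _) h⟩,
        fun h => hcop.mul_dvd_of_dvd_of_dvd h.1 h.2⟩
    unfold ee
    by_cases h1 : p ∣ n <;> by_cases h2 : q ∣ n <;> simp only [hd, h1, h2, and_self, and_true,
      true_and, and_false, false_and, if_true, if_false] <;> field_simp <;> ring
  rw [Finset.sum_congr rfl e1, Finset.sum_add_distrib, Finset.sum_sub_distrib,
    Finset.sum_sub_distrib, ← Finset.mul_sum, ← Finset.mul_sum, mult_count x hx.le,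
    mult_count x hx.le, mult_count x hx.le, Finset.sum_const, Nat.card_Ioc, nsmul_eq_mul,
    Nat.sub_zero]
  have a1 : (⌊x / p⌋₊ : ℝ) ≤ x / p := Nat.floor_le (by positivity)
  have a2 : x / p < (⌊x / p⌋₊ : ℝ) + 1 := Nat.lt_floor_add_one _
  have b1 : (⌊x / q⌋₊ : ℝ) ≤ x / q := Nat.floor_le (by positivity)
  have b2 : x / q < (⌊x / q⌋₊ : ℝ) + 1 := Nat.lt_floor_add_one _
  have c1 : (⌊x / ((p * q : ℕ) : ℝ)⌋₊ : ℝ) ≤ x / ((p * q : ℕ) : ℝ) := Nat.floor_le (by positivity)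
  have c2 : x / ((p * q : ℕ) : ℝ) < (⌊x / ((p * q : ℕ) : ℝ)⌋₊ : ℝ) + 1 := Nat.lt_floor_add_one _
  have d1 : (⌊x⌋₊ : ℝ) ≤ x := Nat.floor_le hx.le
  have d2 : x < (⌊x⌋₊ : ℝ) + 1 := Nat.lt_floor_add_one _
  set A := (⌊x / p⌋₊ : ℝ)
  set B := (⌊x / q⌋₊ : ℝ)
  set Cc := (⌊x / ((p * q : ℕ) : ℝ)⌋₊ : ℝ)
  set D := (⌊x⌋₊ : ℝ)
  rw [Nat.cast_mul] at c1 c2
  have hq1 : 1 / (q:ℝ) ≤ 1 / 2 := by
    apply one_div_le_one_div_of_le <;> linarith
  have hp1 : 1 / (p:ℝ) ≤ 1 / 2 := by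
    apply one_div_le_one_div_of_le <;> linarith
  have hq3 : 0 < 1 / (q:ℝ) := by positivity
  have hp3 : 0 < 1 / (p:ℝ) := by positivity
  have e2 : x / ((p:ℝ) * q) - 1 / q * (x / p) - 1 / p * (x / q) + x * (1 / (p * q)) = 0 := by
    field_simp; ring
  have hA : 0 ≤ 1 / (q:ℝ) * (x / p - A) := mul_nonneg hq3.le (by linarith)
  have hA' : 1 / (q:ℝ) * (x / p - A) ≤ 1 / 2 * 1 := by
    apply mul_le_mul hq1 (by linarith) (by linarith) (by norm_num)
  have hB : 0 ≤ 1 / (p:ℝ) * (x / q - B) := mul_nonneg hp3.le (by linarith)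
  have hB' : 1 / (p:ℝ) * (x / q - B) ≤ 1 / 2 * 1 := by
    apply mul_le_mul hp1 (by linarith) (by linarith) (by norm_num)
  have hpq3 : 0 < 1 / ((p:ℝ) * q) := by positivity
  have hpq1 : 1 / ((p:ℝ) * q) ≤ 1 := by
    rw [div_le_one (by positivity)]; nlinarith
  have hD : 0 ≤ (x - D) * (1 / ((p:ℝ) * q)) := mul_nonneg (by linarith) hpq3.le
  have hD' : (x - D) * (1 / ((p:ℝ) * q)) ≤ 1 * 1 := by
    apply mul_le_mul (by linarith) hpq1 hpq3.le (by norm_num)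
  rw [abs_le]
  constructor <;> nlinarith

/-- Dual Turan-Kubilius inequality (Bessel form). -/
lemma tk (x : ℝ) (hx : 0 < x) (P : Finset ℕ) (hP : ∀ p ∈ P, p.Prime) (a : ℕ → ℝ)
    (ha : ∀ n, a n ^ 2 = a n) (D : ℕ → ℝ) (hD1 : ∀ p ∈ P, |D p| ≤ 1)
    (hD : ∀ p ∈ P, ∑ n ∈ Ioc 0 ⌊x⌋₊, a n * ee p n = x * (D p / p)) :
    ∑ p ∈ P, D p ^ 2 / p ≤ (∑ n ∈ Ioc 0 ⌊x⌋₊, a n) / x + 2 * (P.card : ℝ) ^ 2 / x := by
  have h0 : 0 ≤ ∑ n ∈ Ioc 0 ⌊x⌋₊, (a n - ∑ p ∈ P, D p * ee p n) ^ 2 :=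
    Finset.sum_nonneg fun n _ => sq_nonneg _
  have e1 : ∑ n ∈ Ioc 0 ⌊x⌋₊, (a n - ∑ p ∈ P, D p * ee p n) ^ 2
      = ∑ n ∈ Ioc 0 ⌊x⌋₊, a n - 2 * ∑ p ∈ P, D p * ∑ n ∈ Ioc 0 ⌊x⌋₊, a n * ee p n
        + ∑ p ∈ P, ∑ q ∈ P, D p * D q * ∑ n ∈ Ioc 0 ⌊x⌋₊, ee p n * ee q n := by
    have e2 : ∀ n ∈ Ioc 0 ⌊x⌋₊, (a n - ∑ p ∈ P, D p * ee p n) ^ 2
        = a n - 2 * ∑ p ∈ P, D p * (a n * ee p n)
          + ∑ p ∈ P, ∑ q ∈ P, D p * D q * (ee p n * ee q n) := by
      intro n _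
      have h1 : ∑ p ∈ P, D p * (a n * ee p n) = a n * ∑ p ∈ P, D p * ee p n := by
        rw [Finset.mul_sum]; exact Finset.sum_congr rfl fun p _ => by ring
      have h2 : ∑ p ∈ P, ∑ q ∈ P, D p * D q * (ee p n * ee q n)
          = (∑ p ∈ P, D p * ee p n) * (∑ p ∈ P, D p * ee p n) := by
        rw [Finset.sum_mul_sum]
        exact Finset.sum_congr rfl fun p _ => Finset.sum_congr rfl fun q _ => by ring
      rw [h1, h2]
      have := ha n
      linear_combination this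
    rw [Finset.sum_congr rfl e2, Finset.sum_add_distrib, Finset.sum_sub_distrib, ← Finset.mul_sum,
      Finset.sum_comm]
    congr 1
    · congr 2
      exact Finset.sum_congr rfl fun p _ => by rw [Finset.mul_sum]
    · rw [Finset.sum_comm]
      refine Finset.sum_congr rfl fun p _ => ?_
      rw [Finset.sum_comm]
      exact Finset.sum_congr rfl fun q _ => by rw [Finset.mul_sum]
  have e3 : ∑ p ∈ P, D p * ∑ n ∈ Ioc 0 ⌊x⌋₊, a n * ee p n = x * ∑ p ∈ P, D p ^ 2 / p := by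
    rw [Finset.mul_sum]
    exact Finset.sum_congr rfl fun p hp => by rw [hD p hp]; ring
  have e4 : ∑ p ∈ P, ∑ q ∈ P, D p * D q * ∑ n ∈ Ioc 0 ⌊x⌋₊, ee p n * ee q n
      ≤ ∑ p ∈ P, ∑ q ∈ P, ((if p = q then D p ^ 2 * (x / p) else 0) + 2) := by
    refine Finset.sum_le_sum fun p hp => Finset.sum_le_sum fun q hq => ?_
    by_cases hpq : p = q
    · subst hpq
      rw [if_pos rfl]
      have := mul_le_mul_of_nonneg_left (ee_diag x hx p (hP p hp)) (sq_nonneg (D p))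
      rw [← sq]
      linarith
    · rw [if_neg hpq, zero_add]
      have h1 := ee_off x hx p q (hP p hp) (hP q hq) hpq
      calc D p * D q * ∑ n ∈ Ioc 0 ⌊x⌋₊, ee p n * ee q n
          ≤ |D p * D q * ∑ n ∈ Ioc 0 ⌊x⌋₊, ee p n * ee q n| := le_abs_self _
        _ = |D p| * |D q| * |∑ n ∈ Ioc 0 ⌊x⌋₊, ee p n * ee q n| := by rw [abs_mul, abs_mul]
        _ ≤ 1 * 1 * 2 := by
            apply mul_le_mul _ h1 (abs_nonneg _) (by norm_num)
            exact mul_le_mul (hD1 p hp) (hD1 q hq) (abs_nonneg _) (by norm_num)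
        _ = 2 := by norm_num
  have e5 : ∑ p ∈ P, ∑ q ∈ P, ((if p = q then D p ^ 2 * (x / p) else 0) + 2)
      = x * ∑ p ∈ P, D p ^ 2 / p + 2 * (P.card : ℝ) ^ 2 := by
    have : ∀ p ∈ P, ∑ q ∈ P, ((if p = q then D p ^ 2 * (x / p) else 0) + 2)
        = D p ^ 2 * (x / p) + 2 * P.card := by
      intro p hp
      rw [Finset.sum_add_distrib, Finset.sum_ite_eq, if_pos hp, Finset.sum_const, nsmul_eq_mul]
      ring
    rw [Finset.sum_congr rfl this, Finset.sum_add_distrib, Finset.sum_const, nsmul_eq_mul,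
      Finset.mul_sum]
    congr 1
    · exact Finset.sum_congr rfl fun p _ => by ring
    · ring
  rw [e1, e3] at h0
  have h6 : x * ∑ p ∈ P, D p ^ 2 / p ≤ ∑ n ∈ Ioc 0 ⌊x⌋₊, a n + 2 * (P.card : ℝ) ^ 2 := by
    linarith
  rw [← add_div, le_div_iff₀ hx]
  linarith


variable {G : Type*} [Group G]

/-- number of `n ≤ x` with `f n = h` -/
def cnt (f : ℕ → G) (x : ℝ) (h : G) : ℝ := ∑ n ∈ Ioc 0 ⌊x⌋₊, if f n = h then (1:ℝ) else 0

/-- proportion of `n ≤ x` with `f n = h` -/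
def NN (f : ℕ → G) (x : ℝ) (h : G) : ℝ := cnt f x h / x

lemma cnt_nonneg (f : ℕ → G) (x : ℝ) (h : G) : 0 ≤ cnt f x h :=
  Finset.sum_nonneg fun n _ => by split_ifs <;> norm_num

lemma NN_nonneg (f : ℕ → G) (x : ℝ) (hx : 0 < x) (h : G) : 0 ≤ NN f x h :=
  div_nonneg (cnt_nonneg f x h) hx.le

lemma sum_cnt_le (f : ℕ → G) (x : ℝ) (hx : 0 < x) (F : Finset G) :
    ∑ h ∈ F, cnt f x h ≤ x := by
  unfold cnt
  rw [Finset.sum_comm]
  calc ∑ n ∈ Ioc 0 ⌊x⌋₊, ∑ h ∈ F, (if f n = h then (1:ℝ) else 0)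
      ≤ ∑ n ∈ Ioc 0 ⌊x⌋₊, (1:ℝ) := by
        refine Finset.sum_le_sum fun n _ => ?_
        rw [Finset.sum_ite_eq]
        split_ifs <;> norm_num
    _ = (⌊x⌋₊ : ℝ) := by simp
    _ ≤ x := Nat.floor_le hx.le

lemma sum_NN_le (f : ℕ → G) (x : ℝ) (hx : 0 < x) (F : Finset G) :
    ∑ h ∈ F, NN f x h ≤ 1 := by
  unfold NN
  rw [← Finset.sum_div, div_le_one hx]
  exact sum_cnt_le f x hx F

lemma NN_le_one (f : ℕ → G) (x : ℝ) (hx : 0 < x) (h : G) : NN f x h ≤ 1 := by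
  have := sum_NN_le f x hx {h}
  simpa using this

lemma NN_lip (f : ℕ → G) (x y : ℝ) (hx : 0 < x) (hxy : x ≤ y) (h : G) :
    |NN f y h - NN f x h| ≤ 1 - x / y + 1 / y := by
  have hy : 0 < y := lt_of_lt_of_le hx hxy
  have hfl : ⌊x⌋₊ ≤ ⌊y⌋₊ := Nat.floor_mono hxy
  have h1 : cnt f x h ≤ cnt f y h :=
    Finset.sum_le_sum_of_subset_of_nonneg (Finset.Ioc_subset_Ioc le_rfl hfl)
      fun n _ _ => by split_ifs <;> norm_num
  have h2 : cnt f y h ≤ cnt f x h + (y - x + 1) := by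
    have e : Ioc 0 ⌊y⌋₊ = Ioc 0 ⌊x⌋₊ ∪ Ioc ⌊x⌋₊ ⌊y⌋₊ :=
      (Finset.Ioc_union_Ioc_eq_Ioc (Nat.zero_le _) hfl).symm
    have h3 : cnt f y h ≤ cnt f x h + ∑ n ∈ Ioc ⌊x⌋₊ ⌊y⌋₊, (1:ℝ) := by
      unfold cnt
      rw [e, Finset.sum_union (Finset.disjoint_left.mpr fun n hn hn' => by
        rw [Finset.mem_Ioc] at hn hn'; omega)]
      gcongr
      split_ifs <;> norm_num
    have h4 : ∑ n ∈ Ioc ⌊x⌋₊ ⌊y⌋₊, (1:ℝ) = (⌊y⌋₊ : ℝ) - ⌊x⌋₊ := by
      rw [Finset.sum_const, Nat.card_Ioc, nsmul_eq_mul, mul_one, Nat.cast_sub hfl]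
    have h5 : (⌊y⌋₊ : ℝ) ≤ y := Nat.floor_le hy.le
    have h6 : x < (⌊x⌋₊ : ℝ) + 1 := Nat.lt_floor_add_one _
    linarith
  have h7 : cnt f x h ≤ x := by
    have := sum_cnt_le f x hx {h}
    simpa using this
  have h8 := cnt_nonneg f x h
  unfold NN
  have e1 : 1 - x / y + 1 / y = (y - x + 1) / y := by field_simp
  rw [e1, abs_le]
  have h9 : cnt f x h / y ≤ cnt f x h / x := by
    apply div_le_div_of_nonneg_left h8 hx hxy
  have h10 : cnt f x h / x - cnt f x h / y ≤ (y - x) / y := by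
    have : cnt f x h / x - cnt f x h / y = (cnt f x h / x) * ((y - x) / y) := by
      field_simp
    rw [this]
    have h11 : cnt f x h / x ≤ 1 := (div_le_one hx).mpr h7
    have h12 : 0 ≤ (y - x) / y := div_nonneg (by linarith) hy.le
    nlinarith
  have h13 : (y - x) / y ≤ (y - x + 1) / y := by
    apply div_le_div_of_nonneg_right (by linarith) hy.le
  have h14 : cnt f x h / y ≤ cnt f y h / y := div_le_div_of_nonneg_right h1 hy.le
  have h15 : cnt f y h / y ≤ cnt f x h / y + (y - x + 1) / y := by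
    rw [← add_div]; exact div_le_div_of_nonneg_right h2 hy.le
  constructor <;> linarith

/-- the Turan-Kubilius coefficient -/
def DD (f : ℕ → G) (x : ℝ) (h : G) (p : ℕ) : ℝ :=
  (p / x) * ∑ n ∈ Ioc 0 ⌊x⌋₊, (if f n = h then (1:ℝ) else 0) * ee p n

lemma DD_eq (f : ℕ → G) (x : ℝ) (hx : 0 < x) (h : G) (p : ℕ) (hp : p.Prime) :
    DD f x h p = (p / x) * (∑ m ∈ Ioc 0 ⌊x / p⌋₊, if f (p * m) = h then (1:ℝ) else 0)
      - NN f x h := by
  have hp0 : (0:ℝ) < p := by exact_mod_cast hp.pos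
  unfold DD NN cnt
  have e1 : ∑ n ∈ Ioc 0 ⌊x⌋₊, (if f n = h then (1:ℝ) else 0) * ee p n
      = ∑ n ∈ (Ioc 0 ⌊x⌋₊).filter (fun n => p ∣ n), (if f n = h then (1:ℝ) else 0)
        - (1 / p) * ∑ n ∈ Ioc 0 ⌊x⌋₊, (if f n = h then (1:ℝ) else 0) := by
    rw [Finset.sum_filter, Finset.mul_sum, ← Finset.sum_sub_distrib]
    refine Finset.sum_congr rfl fun n _ => ?_
    unfold ee
    split_ifs <;> ring
  have e2 : ∑ n ∈ (Ioc 0 ⌊x⌋₊).filter (fun n => p ∣ n), (if f n = h then (1:ℝ) else 0)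
      = ∑ m ∈ Ioc 0 ⌊x / p⌋₊, (if f (p * m) = h then (1:ℝ) else 0) := by
    symm
    refine Finset.sum_bij (fun m _ => p * m) ?_ ?_ ?_ ?_
    · intro m hm
      rw [Nat.floor_div_natCast, Finset.mem_Ioc] at hm
      rw [Finset.mem_filter, Finset.mem_Ioc]
      refine ⟨⟨Nat.mul_pos hp.pos hm.1, ?_⟩, dvd_mul_right _ _⟩
      calc p * m ≤ p * (⌊x⌋₊ / p) := Nat.mul_le_mul_left _ hm.2
        _ ≤ ⌊x⌋₊ := Nat.mul_div_le _ _
    · intro m _ m' _ hmm
      exact Nat.eq_of_mul_eq_mul_left hp.pos hmm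
    · intro n hn
      rw [Finset.mem_filter, Finset.mem_Ioc] at hn
      obtain ⟨⟨h1, h2⟩, m, rfl⟩ := hn
      refine ⟨m, ?_, rfl⟩
      rw [Nat.floor_div_natCast, Finset.mem_Ioc]
      exact ⟨Nat.pos_of_mul_pos_left h1, by rwa [Nat.le_div_iff_mul_le hp.pos, mul_comm]⟩
    · intro m _; rfl
  rw [e1, e2]
  field_simp

lemma DD_abs_le (f : ℕ → G) (x : ℝ) (hx : 0 < x) (h : G) (p : ℕ) (hp : p.Prime) :
    |DD f x h p| ≤ 1 := by
  have hp0 : (0:ℝ) < p := by exact_mod_cast hp.pos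
  rw [DD_eq f x hx h p hp]
  have h1 := NN_nonneg f x hx h
  have h2 := NN_le_one f x hx h
  have h3 : 0 ≤ (p / x) * (∑ m ∈ Ioc 0 ⌊x / p⌋₊, if f (p * m) = h then (1:ℝ) else 0) :=
    mul_nonneg (div_pos hp0 hx).le (Finset.sum_nonneg fun n _ => by split_ifs <;> norm_num)
  have h4 : (p / x) * (∑ m ∈ Ioc 0 ⌊x / p⌋₊, if f (p * m) = h then (1:ℝ) else 0) ≤ 1 := by
    have h5 : (∑ m ∈ Ioc 0 ⌊x / p⌋₊, if f (p * m) = h then (1:ℝ) else 0) ≤ x / p := by
      calc (∑ m ∈ Ioc 0 ⌊x / p⌋₊, if f (p * m) = h then (1:ℝ) else 0)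
          ≤ ∑ m ∈ Ioc 0 ⌊x / p⌋₊, (1:ℝ) :=
            Finset.sum_le_sum fun n _ => by split_ifs <;> norm_num
        _ = (⌊x / p⌋₊ : ℝ) := by simp
        _ ≤ x / p := Nat.floor_le (by positivity)
    calc (p / x) * (∑ m ∈ Ioc 0 ⌊x / p⌋₊, if f (p * m) = h then (1:ℝ) else 0)
        ≤ (p / x) * (x / p) := mul_le_mul_of_nonneg_left h5 (div_pos hp0 hx).le
      _ = 1 := by field_simp
  rw [abs_le]
  constructor <;> linarith

lemma DD_rel (f : ℕ → G) (hf : ∀ m n : ℕ, 0 < m → 0 < n → Nat.Coprime m n → f (m * n) = f m * f n)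
    (x : ℝ) (hx : 0 < x) (h : G) (p : ℕ) (hp : p.Prime) :
    |DD f x h p - (NN f (x / p) ((f p)⁻¹ * h) - NN f x h)| ≤ 1 / p := by
  have hp0 : (0:ℝ) < p := by exact_mod_cast hp.pos
  rw [DD_eq f x hx h p hp]
  have e1 : (p / x) * (∑ m ∈ Ioc 0 ⌊x / p⌋₊, if f (p * m) = h then (1:ℝ) else 0) - NN f x h
      - (NN f (x / p) ((f p)⁻¹ * h) - NN f x h)
      = (p / x) * ∑ m ∈ Ioc 0 ⌊x / p⌋₊, ((if f (p * m) = h then (1:ℝ) else 0)
        - (if f m = (f p)⁻¹ * h then (1:ℝ) else 0)) := by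
    unfold NN cnt
    rw [Finset.sum_sub_distrib, mul_sub]
    field_simp
    ring
  rw [e1, abs_mul, abs_of_pos (div_pos hp0 hx)]
  have h2 : |∑ m ∈ Ioc 0 ⌊x / p⌋₊, ((if f (p * m) = h then (1:ℝ) else 0)
        - (if f m = (f p)⁻¹ * h then (1:ℝ) else 0))| ≤ x / p / p := by
    calc |∑ m ∈ Ioc 0 ⌊x / p⌋₊, ((if f (p * m) = h then (1:ℝ) else 0)
        - (if f m = (f p)⁻¹ * h then (1:ℝ) else 0))|
        ≤ ∑ m ∈ Ioc 0 ⌊x / p⌋₊, |(if f (p * m) = h then (1:ℝ) else 0)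
        - (if f m = (f p)⁻¹ * h then (1:ℝ) else 0)| := Finset.abs_sum_le_sum_abs _ _
      _ ≤ ∑ m ∈ Ioc 0 ⌊x / p⌋₊, (if p ∣ m then (1:ℝ) else 0) := by
          refine Finset.sum_le_sum fun m hm => ?_
          rw [Finset.mem_Ioc] at hm
          by_cases hpm : p ∣ m
          · rw [if_pos hpm]
            split_ifs <;> norm_num
          · rw [if_neg hpm]
            have hc : Nat.Coprime p m := (Nat.Prime.coprime_iff_not_dvd hp).mpr hpm
            have h3 : f (p * m) = h ↔ f m = (f p)⁻¹ * h := by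
              rw [hf p m hp.pos hm.1 hc, eq_inv_mul_iff_mul_eq]
            by_cases h4 : f m = (f p)⁻¹ * h
            · rw [if_pos h4, if_pos (h3.mpr h4)]; simp
            · rw [if_neg h4, if_neg (fun h5 => h4 (h3.mp h5))]; simp
      _ = (⌊x / p / p⌋₊ : ℝ) := mult_count (x / p) (by positivity) p
      _ ≤ x / p / p := Nat.floor_le (by positivity)
  calc (p / x) * |∑ m ∈ Ioc 0 ⌊x / p⌋₊, ((if f (p * m) = h then (1:ℝ) else 0)
        - (if f m = (f p)⁻¹ * h then (1:ℝ) else 0))|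
      ≤ (p / x) * (x / p / p) := mul_le_mul_of_nonneg_left h2 (div_pos hp0 hx).le
    _ = 1 / p := by field_simp

/-- the constant of the Turan-Kubilius inequality -/
def CC : ℝ := 2 + 2 * ∑' n : ℕ, 1 / (n:ℝ) ^ 3

lemma tkw (f : ℕ → G) (hf : ∀ m n : ℕ, 0 < m → 0 < n → Nat.Coprime m n → f (m * n) = f m * f n)
    (x : ℝ) (hx : 0 < x) (P : Finset ℕ) (hP : ∀ p ∈ P, p.Prime) (w : ℕ → G) :
    ∑ p ∈ P, (1 / (p:ℝ)) * (NN f (x / p) ((f p)⁻¹ * w p) - NN f x (w p)) ^ 2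
      ≤ CC + 4 * (P.card : ℝ) ^ 3 / x := by
  have h1 : ∀ h : G, ∑ p ∈ P.filter (fun p => w p = h), DD f x h p ^ 2 / p
      ≤ NN f x h + 2 * (P.card : ℝ) ^ 2 / x := by
    intro h
    have := tk x hx (P.filter (fun p => w p = h)) (fun p hp => hP p (Finset.mem_filter.mp hp).1)
      (fun n => if f n = h then (1:ℝ) else 0) (fun n => by split_ifs <;> norm_num)
      (fun p => DD f x h p) (fun p hp => DD_abs_le f x hx h p (hP p (Finset.mem_filter.mp hp).1))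
      (fun p hp => by
        have hp0 : (0:ℝ) < p := by exact_mod_cast (hP p (Finset.mem_filter.mp hp).1).pos
        show _ = x * (DD f x h p / p)
        unfold DD
        field_simp)
    refine this.trans ?_
    unfold NN cnt
    gcongr
    exact Finset.filter_subset _ _
  have h2 : ∑ p ∈ P, DD f x (w p) p ^ 2 / p ≤ 1 + 2 * (P.card : ℝ) ^ 3 / x := by
    calc ∑ p ∈ P, DD f x (w p) p ^ 2 / p
        = ∑ h ∈ P.image w, ∑ p ∈ P.filter (fun p => w p = h), DD f x (w p) p ^ 2 / p :=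
          (Finset.sum_fiberwise_of_maps_to (fun p hp => Finset.mem_image_of_mem w hp) _).symm
      _ = ∑ h ∈ P.image w, ∑ p ∈ P.filter (fun p => w p = h), DD f x h p ^ 2 / p := by
          refine Finset.sum_congr rfl fun h _ => Finset.sum_congr rfl fun p hp => ?_
          rw [(Finset.mem_filter.mp hp).2]
      _ ≤ ∑ h ∈ P.image w, (NN f x h + 2 * (P.card : ℝ) ^ 2 / x) :=
          Finset.sum_le_sum fun h _ => h1 h
      _ ≤ 1 + 2 * (P.card : ℝ) ^ 3 / x := by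
          rw [Finset.sum_add_distrib, Finset.sum_const, nsmul_eq_mul]
          have h3 := sum_NN_le f x hx (P.image w)
          have h4 : ((P.image w).card : ℝ) ≤ P.card := by exact_mod_cast Finset.card_image_le
          have h5 : ((P.image w).card : ℝ) * (2 * (P.card : ℝ) ^ 2 / x)
              ≤ P.card * (2 * (P.card : ℝ) ^ 2 / x) :=
            mul_le_mul_of_nonneg_right h4 (by positivity)
          have h6 : (P.card : ℝ) * (2 * (P.card : ℝ) ^ 2 / x) = 2 * (P.card : ℝ) ^ 3 / x := by ring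
          linarith
  have h3 : ∀ p ∈ P, (1 / (p:ℝ)) * (NN f (x / p) ((f p)⁻¹ * w p) - NN f x (w p)) ^ 2
      ≤ 2 * (DD f x (w p) p ^ 2 / p) + 2 * (1 / (p:ℝ) ^ 3) := by
    intro p hp
    have hp0 : (0:ℝ) < p := by exact_mod_cast (hP p hp).pos
    have h4 := DD_rel f hf x hx (w p) p (hP p hp)
    set U := NN f (x / p) ((f p)⁻¹ * w p) - NN f x (w p)
    set D := DD f x (w p) p
    have h5 : (D - U) ^ 2 ≤ (1 / (p:ℝ)) ^ 2 := by
      rw [← sq_abs (D - U)]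
      exact pow_le_pow_left₀ (abs_nonneg _) h4 2
    have h6 : U ^ 2 ≤ 2 * D ^ 2 + 2 * (1 / (p:ℝ)) ^ 2 := by nlinarith [sq_nonneg (2 * D - U)]
    calc (1 / (p:ℝ)) * U ^ 2 ≤ (1 / (p:ℝ)) * (2 * D ^ 2 + 2 * (1 / (p:ℝ)) ^ 2) :=
          mul_le_mul_of_nonneg_left h6 (by positivity)
      _ = 2 * (D ^ 2 / p) + 2 * (1 / (p:ℝ) ^ 3) := by field_simp
  have h7 : ∑ p ∈ P, 1 / (p:ℝ) ^ 3 ≤ ∑' n : ℕ, 1 / (n:ℝ) ^ 3 :=
    (Real.summable_one_div_nat_pow.mpr (by norm_num)).sum_le_tsum P fun n _ => by positivity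
  calc ∑ p ∈ P, (1 / (p:ℝ)) * (NN f (x / p) ((f p)⁻¹ * w p) - NN f x (w p)) ^ 2
      ≤ ∑ p ∈ P, (2 * (DD f x (w p) p ^ 2 / p) + 2 * (1 / (p:ℝ) ^ 3)) := Finset.sum_le_sum h3
    _ = 2 * ∑ p ∈ P, DD f x (w p) p ^ 2 / p + 2 * ∑ p ∈ P, 1 / (p:ℝ) ^ 3 := by
        rw [Finset.sum_add_distrib, Finset.mul_sum, Finset.mul_sum]
    _ ≤ 2 * (1 + 2 * (P.card : ℝ) ^ 3 / x) + 2 * ∑' n : ℕ, 1 / (n:ℝ) ^ 3 := by linarith
    _ = CC + 4 * (P.card : ℝ) ^ 3 / x := by unfold CC; ring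


/-- the properties of the limit flows that are used -/
structure IsFlow (f : ℕ → G) (ν : ℝ → G → ℝ) : Prop where
  nonneg : ∀ s h, 0 ≤ ν s h
  sum_le : ∀ s (F : Finset G), ∑ h ∈ F, ν s h ≤ 1
  lip : ∀ s s' h, |ν s h - ν s' h| ≤ |s - s'|
  tk : ∀ s (P : Finset ℕ), (∀ p ∈ P, p.Prime) → ∀ w : ℕ → G,
    ∑ p ∈ P, (1 / (p:ℝ)) * (ν (s - Real.log p) ((f p)⁻¹ * w p) - ν s (w p)) ^ 2 ≤ CC

lemma exists_flow (f : ℕ → G)
    (hf : ∀ m n : ℕ, 0 < m → 0 < n → Nat.Coprime m n → f (m * n) = f m * f n)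
    (U : Ultrafilter ℝ) (hU : (U : Filter ℝ) ≤ atTop) :
    ∃ ν : ℝ → G → ℝ, IsFlow f ν ∧
      ∀ s h, Tendsto (fun x => NN f (x * Real.exp s) h) U (𝓝 (ν s h)) := by
  have hpos : ∀ᶠ x : ℝ in (U : Filter ℝ), 0 < x := hU (eventually_gt_atTop 0)
  have hex : ∀ s h, ∃ c, Tendsto (fun x => NN f (x * Real.exp s) h) U (𝓝 c) := by
    intro s h
    have h1 : ((U.map (fun x => NN f (x * Real.exp s) h) : Ultrafilter ℝ) : Filter ℝ)
        ≤ 𝓟 (Set.Icc (0:ℝ) 1) := by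
      rw [Ultrafilter.coe_map]
      apply tendsto_principal.mpr
      filter_upwards [hpos] with x hx
      have hx' : 0 < x * Real.exp s := mul_pos hx (Real.exp_pos s)
      exact ⟨NN_nonneg f _ hx' h, NN_le_one f _ hx' h⟩
    obtain ⟨c, _, hc⟩ := isCompact_Icc.ultrafilter_le_nhds _ h1
    exact ⟨c, by rwa [Ultrafilter.coe_map] at hc⟩
  choose ν hν using hex
  have hinv : Tendsto (fun x : ℝ => 1 / x) U (𝓝 0) := by
    have := (tendsto_inv_atTop_zero (𝕜 := ℝ)).mono_left hU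
    simpa using this
  have hlip : ∀ s s' h, s ≤ s' → |ν s' h - ν s h| ≤ s' - s := by
    intro s s' h hss
    have h1 : Tendsto (fun x => |NN f (x * Real.exp s') h - NN f (x * Real.exp s) h|) U
        (𝓝 |ν s' h - ν s h|) := ((hν s' h).sub (hν s h)).abs
    have h2 : Tendsto (fun x : ℝ => 1 - Real.exp (s - s') + (1 / x) * Real.exp (-s')) U
        (𝓝 (1 - Real.exp (s - s') + 0 * Real.exp (-s'))) :=
      tendsto_const_nhds.add (hinv.mul_const _)
    have h3 : |ν s' h - ν s h| ≤ 1 - Real.exp (s - s') + 0 * Real.exp (-s') := by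
      refine le_of_tendsto_of_tendsto h1 h2 ?_
      filter_upwards [hpos] with x hx
      have h4 := NN_lip f (x * Real.exp s) (x * Real.exp s') (mul_pos hx (Real.exp_pos s))
        (mul_le_mul_of_nonneg_left (Real.exp_le_exp.mpr hss) hx.le) h
      refine h4.trans (le_of_eq ?_)
      rw [Real.exp_sub, Real.exp_neg]
      have := Real.exp_pos s'
      field_simp
    have h5 := Real.add_one_le_exp (s - s')
    linarith
  refine ⟨ν, ⟨?_, ?_, ?_, ?_⟩, hν⟩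
  · intro s h
    refine ge_of_tendsto (hν s h) ?_
    filter_upwards [hpos] with x hx
    exact NN_nonneg f _ (mul_pos hx (Real.exp_pos s)) h
  · intro s F
    refine le_of_tendsto (tendsto_finsetSum F fun h _ => hν s h) ?_
    filter_upwards [hpos] with x hx
    exact sum_NN_le f _ (mul_pos hx (Real.exp_pos s)) F
  · intro s s' h
    rcases le_total s s' with hss | hss
    · rw [abs_sub_comm, abs_sub_comm s s', abs_of_nonneg (sub_nonneg.mpr hss)]
      exact hlip s s' h hss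
    · rw [abs_of_nonneg (sub_nonneg.mpr hss)]
      exact hlip s' s h hss
  · intro s P hP w
    have h1 : Tendsto (fun x => ∑ p ∈ P, (1 / (p:ℝ)) *
        (NN f (x * Real.exp (s - Real.log p)) ((f p)⁻¹ * w p) - NN f (x * Real.exp s) (w p)) ^ 2) U
        (𝓝 (∑ p ∈ P, (1 / (p:ℝ)) *
          (ν (s - Real.log p) ((f p)⁻¹ * w p) - ν s (w p)) ^ 2)) :=
      tendsto_finsetSum P fun p _ => (((hν _ _).sub (hν _ _)).pow 2).const_mul _
    have h2 : Tendsto (fun x : ℝ => CC + (1 / x) * (4 * (P.card : ℝ) ^ 3 * Real.exp (-s))) U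
        (𝓝 (CC + 0 * (4 * (P.card : ℝ) ^ 3 * Real.exp (-s)))) :=
      tendsto_const_nhds.add (hinv.mul_const _)
    rw [zero_mul, add_zero] at h2
    refine le_of_tendsto_of_tendsto h1 h2 ?_
    filter_upwards [hpos] with x hx
    have h3 := tkw f hf (x * Real.exp s) (mul_pos hx (Real.exp_pos s)) P hP w
    have h4 : CC + 4 * (P.card : ℝ) ^ 3 / (x * Real.exp s)
        = CC + (1 / x) * (4 * (P.card : ℝ) ^ 3 * Real.exp (-s)) := by
      rw [Real.exp_neg]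
      field_simp
    rw [← h4]
    refine le_trans (le_of_eq ?_) h3
    refine Finset.sum_congr rfl fun p hp => ?_
    have hp0 : (0:ℝ) < p := by exact_mod_cast (hP p hp).pos
    have h5 : x * Real.exp (s - Real.log p) = x * Real.exp s / p := by
      rw [Real.exp_sub, Real.exp_log hp0, mul_div_assoc]
    rw [h5]

/-- sets with a convergent sum of reciprocals -/
def RS (S : Set ℕ) : Prop := Summable (fun n : ℕ => if n ∈ S then 1 / (n:ℝ) else 0)

lemma RS.mono {S T : Set ℕ} (hT : RS T) (h : S ⊆ T) : RS S := by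
  refine Summable.of_nonneg_of_le (fun n => by split_ifs <;> positivity) (fun n => ?_) hT
  by_cases h1 : n ∈ S
  · rw [if_pos h1, if_pos (h h1)]
  · rw [if_neg h1]; split_ifs <;> positivity

lemma RS.union {S T : Set ℕ} (hS : RS S) (hT : RS T) : RS (S ∪ T) := by
  refine Summable.of_nonneg_of_le (fun n => by split_ifs <;> positivity) (fun n => ?_) (hS.add hT)
  by_cases h1 : n ∈ S ∪ T
  · rw [if_pos h1]
    rcases h1 with h1 | h1
    · rw [if_pos h1]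
      have : (0:ℝ) ≤ if n ∈ T then 1 / (n:ℝ) else 0 := by split_ifs <;> positivity
      linarith
    · rw [if_pos h1]
      have : (0:ℝ) ≤ if n ∈ S then 1 / (n:ℝ) else 0 := by split_ifs <;> positivity
      linarith
  · rw [if_neg h1]
    have h2 : (0:ℝ) ≤ if n ∈ T then 1 / (n:ℝ) else 0 := by split_ifs <;> positivity
    have h3 : (0:ℝ) ≤ if n ∈ S then 1 / (n:ℝ) else 0 := by split_ifs <;> positivity
    linarith

/-- primes at which the approximate invariance fails -/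
def Bad (f : ℕ → G) (ν : ℝ → G → ℝ) (s ε : ℝ) : Set ℕ :=
  {p | p.Prime ∧ ∃ h, ε < |ν (s - Real.log p) ((f p)⁻¹ * h) - ν s h|}

lemma bad_rs (f : ℕ → G) (ν : ℝ → G → ℝ) (hν : IsFlow f ν) (s ε : ℝ) (hε : 0 < ε) :
    RS (Bad f ν s ε) := by
  refine summable_of_sum_le (c := CC / ε ^ 2) (fun n => by split_ifs <;> positivity) fun u => ?_
  have hw : ∀ p : ℕ, ∃ h : G, p ∈ Bad f ν s ε → ε < |ν (s - Real.log p) ((f p)⁻¹ * h) - ν s h| := by
    intro p
    by_cases hp : p ∈ Bad f ν s ε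
    · obtain ⟨_, h, hh⟩ := hp
      exact ⟨h, fun _ => hh⟩
    · exact ⟨1, fun h => absurd h hp⟩
  choose w hw using hw
  rw [← Finset.sum_filter]
  have h1 := hν.tk s (u.filter (fun p => p ∈ Bad f ν s ε))
    (fun p hp => (Finset.mem_filter.mp hp).2.1) w
  rw [le_div_iff₀ (by positivity), Finset.sum_mul]
  refine le_trans (Finset.sum_le_sum fun p hp => ?_) h1
  have h2 := hw p (Finset.mem_filter.mp hp).2
  refine mul_le_mul_of_nonneg_left ?_ (by positivity)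
  rw [← sq_abs (ν (s - Real.log p) ((f p)⁻¹ * w p) - ν s (w p))]
  exact pow_le_pow_left₀ hε.le h2.le 2


/-- primes with logarithm in `(z, z+δ]` -/
def Win (δ z : ℝ) : Finset ℕ := (Ioc ⌊Real.exp z⌋₊ ⌊Real.exp (z + δ)⌋₊).filter Nat.Prime

lemma mem_Win {δ z : ℝ} {p : ℕ} : p ∈ Win δ z ↔ p.Prime ∧ z < Real.log p ∧ Real.log p ≤ z + δ := by
  unfold Win
  rw [Finset.mem_filter, Finset.mem_Ioc]
  constructor
  · rintro ⟨⟨h1, h2⟩, hp⟩
    have hp0 : (0:ℝ) < p := by exact_mod_cast hp.pos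
    refine ⟨hp, ?_, ?_⟩
    · rw [Real.lt_log_iff_exp_lt hp0]
      exact (Nat.floor_lt (Real.exp_pos z).le).mp h1
    · rw [Real.log_le_iff_le_exp hp0]
      exact (Nat.le_floor_iff (Real.exp_pos _).le).mp h2
  · rintro ⟨hp, h1, h2⟩
    have hp0 : (0:ℝ) < p := by exact_mod_cast hp.pos
    refine ⟨⟨?_, ?_⟩, hp⟩
    · rw [Real.lt_log_iff_exp_lt hp0] at h1
      exact (Nat.floor_lt (Real.exp_pos z).le).mpr h1
    · rw [Real.log_le_iff_le_exp hp0] at h2
      exact (Nat.le_floor_iff (Real.exp_pos _).le).mpr h2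

lemma win_lower (δ : ℝ) (hδ : 0 < δ) : ∃ c : ℝ, 0 < c ∧ ∃ Z : ℝ, 0 < Z ∧ ∀ z, Z ≤ z →
    c / (z + δ) ≤ ∑ p ∈ Win δ z, 1 / (p:ℝ) := by
  have hE : 1 < Real.exp δ := Real.one_lt_exp_iff.mpr hδ
  set κ : ℝ := (Real.exp δ - 1) / (2 * (Real.exp δ + 1)) with hκ
  have hκ0 : 0 < κ := by apply div_pos <;> linarith
  have h1 := (Metric.tendsto_atTop.mp PNT.theta_div_tendsto) κ hκ0
  obtain ⟨X, hX⟩ := h1
  have hth : ∀ x : ℝ, 0 < x → X ≤ x → (1 - κ) * x ≤ Chebyshev.theta x ∧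
      Chebyshev.theta x ≤ (1 + κ) * x := by
    intro x hx hxX
    have h2 := hX x hxX
    rw [Real.dist_eq, abs_lt] at h2
    constructor
    · have h3 : 1 - κ ≤ Chebyshev.theta x / x := by linarith
      rwa [le_div_iff₀ hx] at h3
    · have h3 : Chebyshev.theta x / x ≤ 1 + κ := by linarith
      rwa [div_le_iff₀ hx] at h3
  refine ⟨(Real.exp δ - 1) / (2 * Real.exp δ), by apply div_pos <;> linarith, max 1 X,
    lt_max_of_lt_left one_pos, fun z hz => ?_⟩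
  have hz1 : 1 ≤ z := (le_max_left _ _).trans hz
  have hzX : X ≤ z := (le_max_right _ _).trans hz
  have hez : z ≤ Real.exp z := by linarith [Real.add_one_le_exp z]
  have hx0 := Real.exp_pos z
  have h3 := (hth (Real.exp z) hx0 (hzX.trans hez)).2
  have h4 := (hth (Real.exp (z + δ)) (Real.exp_pos _)
    ((hzX.trans hez).trans (Real.exp_le_exp.mpr (by linarith)))).1
  have hfl : ⌊Real.exp z⌋₊ ≤ ⌊Real.exp (z + δ)⌋₊ := Nat.floor_mono (Real.exp_le_exp.mpr (by linarith))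
  have h5 : Chebyshev.theta (Real.exp (z + δ)) - Chebyshev.theta (Real.exp z)
      = ∑ p ∈ Win δ z, Real.log p := by
    unfold Chebyshev.theta Win
    rw [← Finset.Ioc_union_Ioc_eq_Ioc (Nat.zero_le _) hfl, Finset.filter_union,
      Finset.sum_union]
    · ring
    · rw [Finset.disjoint_left]
      intro n hn hn'
      rw [Finset.mem_filter, Finset.mem_Ioc] at hn hn'
      omega
  have h6 : ∑ p ∈ Win δ z, Real.log p ≤ ∑ p ∈ Win δ z, ((z + δ) * Real.exp (z + δ)) * (1 / (p:ℝ)) := by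
    refine Finset.sum_le_sum fun p hp => ?_
    obtain ⟨hpp, h7, h8⟩ := mem_Win.mp hp
    have hp0 : (0:ℝ) < p := by exact_mod_cast hpp.pos
    have h9 : (p:ℝ) ≤ Real.exp (z + δ) := (Real.log_le_iff_le_exp hp0).mp h8
    have h10 : 1 ≤ Real.exp (z + δ) * (1 / (p:ℝ)) := by
      rw [mul_one_div, le_div_iff₀ hp0, one_mul]; exact h9
    have h11 : 0 ≤ z + δ := by linarith
    calc Real.log p ≤ z + δ := h8
      _ = (z + δ) * 1 := (mul_one _).symm
      _ ≤ (z + δ) * (Real.exp (z + δ) * (1 / (p:ℝ))) := mul_le_mul_of_nonneg_left h10 h11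
      _ = _ := by ring
  rw [← Finset.mul_sum] at h6
  have hzd : 0 < z + δ := by linarith
  have hexp : Real.exp (z + δ) = Real.exp z * Real.exp δ := Real.exp_add _ _
  rw [div_le_iff₀ hzd]
  have h12 : Real.exp z * (Real.exp δ - 1) / 2 ≤ ∑ p ∈ Win δ z, Real.log p := by
    rw [← h5]
    have h13 : (1 - κ) * Real.exp (z + δ) - (1 + κ) * Real.exp z
        = Real.exp z * (Real.exp δ - 1) / 2 := by
      rw [hexp, hκ]
      have : Real.exp δ + 1 ≠ 0 := by linarith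
      field_simp
      ring
    linarith
  set SW := ∑ p ∈ Win δ z, 1 / (p:ℝ)
  have h14 : Real.exp z * (Real.exp δ - 1) / 2 ≤ (z + δ) * (Real.exp z * Real.exp δ) * SW := by
    rw [← hexp]; linarith
  have h15 : (Real.exp δ - 1) / 2 ≤ (z + δ) * Real.exp δ * SW := by
    have h16 : Real.exp z * ((Real.exp δ - 1) / 2) ≤ Real.exp z * ((z + δ) * Real.exp δ * SW) := by
      linarith
    exact le_of_mul_le_mul_left h16 hx0
  rw [div_le_iff₀ (by linarith)]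
  linarith

theorem pw (S : Set ℕ) (hS : RS S) (δ L : ℝ) (hδ : 0 < δ) : ∃ y : ℝ, ∀ z, y ≤ z →
    z ≤ y + L → ∃ p : ℕ, p.Prime ∧ p ∉ S ∧ z ≤ Real.log p ∧ Real.log p ≤ z + δ := by
  obtain ⟨c, hc, Z, hZ, hW⟩ := win_lower δ hδ
  by_contra hcon
  push Not at hcon
  set M := max L δ with hM
  have hML : L ≤ M := le_max_left _ _
  have hMδ : δ ≤ M := le_max_right _ _
  have hM0 : 0 < M := lt_of_lt_of_le hδ hMδ
  choose z hz1 hz2 hz3 using hcon
  obtain ⟨m0, hm0⟩ := exists_nat_gt (Z / M)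
  have hm0' : Z < m0 * M := by rwa [div_lt_iff₀ hM0] at hm0
  set y : ℕ → ℝ := fun m => (2 * (m + m0 : ℕ) : ℝ) * M with hy
  have hyZ : ∀ m, Z ≤ z (y m) := by
    intro m
    refine le_trans ?_ (hz1 (y m))
    simp only [hy]
    push_cast
    have : 0 ≤ (m:ℝ) * M := by positivity
    have : 0 ≤ (m0:ℝ) * M := by positivity
    nlinarith
  have hzhi : ∀ m, z (y m) + δ ≤ (2 * ((m + m0 : ℕ) : ℝ) + 2) * M := by
    intro m
    have := hz2 (y m)
    simp only [hy] at this ⊢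
    linarith
  have hdisj : ∀ m m', m < m' → ∀ p, p ∈ Win δ (z (y m)) → p ∉ Win δ (z (y m')) := by
    intro m m' hmm p hp hp'
    have h1 := (mem_Win.mp hp).2.2
    have h2 := (mem_Win.mp hp').2.1
    have h3 := hzhi m
    have h4 := hz1 (y m')
    simp only [hy] at h4
    have h5 : ((m + m0 : ℕ) : ℝ) + 1 ≤ ((m' + m0 : ℕ) : ℝ) := by exact_mod_cast (by omega)
    nlinarith
  have hlow : ∀ m, c / ((2 * ((m + m0 : ℕ) : ℝ) + 2) * M)
      ≤ ∑ p ∈ Win δ (z (y m)), (if p ∈ S then 1 / (p:ℝ) else 0) := by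
    intro m
    have h1 := hW (z (y m)) (hyZ m)
    have h2 : ∑ p ∈ Win δ (z (y m)), (if p ∈ S then 1 / (p:ℝ) else 0)
        = ∑ p ∈ Win δ (z (y m)), 1 / (p:ℝ) := by
      refine Finset.sum_congr rfl fun p hp => ?_
      obtain ⟨hpp, h3, h4⟩ := mem_Win.mp hp
      rw [if_pos]
      by_contra hpS
      have := hz3 (y m) p hpp hpS h3.le
      linarith
    rw [h2]
    refine le_trans ?_ h1
    apply div_le_div_of_nonneg_left hc.le _ (hzhi m)
    have := hyZ m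
    linarith
  have hsumm : Summable (fun m : ℕ => c / ((2 * ((m + m0 : ℕ) : ℝ) + 2) * M)) := by
    refine summable_of_sum_range_le (c := ∑' p : ℕ, (if p ∈ S then 1 / (p:ℝ) else 0))
      (fun m => by positivity) fun n => ?_
    calc ∑ m ∈ Finset.range n, c / ((2 * ((m + m0 : ℕ) : ℝ) + 2) * M)
        ≤ ∑ m ∈ Finset.range n, ∑ p ∈ Win δ (z (y m)), (if p ∈ S then 1 / (p:ℝ) else 0) :=
          Finset.sum_le_sum fun m _ => hlow m
      _ = ∑ p ∈ (Finset.range n).biUnion (fun m => Win δ (z (y m))),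
            (if p ∈ S then 1 / (p:ℝ) else 0) := by
          rw [Finset.sum_biUnion]
          intro m _ m' _ hmm
          rw [Function.onFun, Finset.disjoint_left]
          intro p hp hp'
          rcases lt_or_gt_of_ne hmm with h | h
          · exact hdisj m m' h p hp hp'
          · exact hdisj m' m h p hp' hp
      _ ≤ ∑' p : ℕ, (if p ∈ S then 1 / (p:ℝ) else 0) :=
          hS.sum_le_tsum _ fun n _ => by split_ifs <;> positivity
  have h1 : Summable (fun m : ℕ => 1 / (((m + (m0 + 1) : ℕ) : ℝ))) := by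
    have := hsumm.mul_left (2 * M / c)
    refine this.congr fun m => ?_
    push_cast
    have : (m:ℝ) + (m0 + 1) ≠ 0 := by positivity
    field_simp
    ring
  rw [summable_nat_add_iff (f := fun m : ℕ => 1 / (m:ℝ))] at h1
  exact Real.not_summable_one_div_natCast h1


/-- left stabiliser of a function on a group -/
def Stab (μ : G → ℝ) : Subgroup G where
  carrier := {t | ∀ h, μ (t⁻¹ * h) = μ h}
  mul_mem' := by
    intro a b ha hb h
    rw [mul_inv_rev, mul_assoc, hb, ha]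
  one_mem' := by intro h; simp
  inv_mem' := by
    intro a ha h
    have := ha (a * h)
    rw [inv_mul_cancel_left] at this
    rw [inv_inv, ← this]

lemma mem_Stab {μ : G → ℝ} {t : G} : t ∈ Stab μ ↔ ∀ h, μ (t⁻¹ * h) = μ h := Iff.rfl

lemma big_finite (μ : G → ℝ) (h1 : ∀ F : Finset G, ∑ h ∈ F, μ h ≤ 1) (η : ℝ) (hη : 0 < η) :
    {h | η ≤ μ h}.Finite := by
  by_contra hinf
  obtain ⟨n, hn⟩ := exists_nat_gt (1 / η)
  obtain ⟨F, hF, hc⟩ := Set.Infinite.exists_subset_card_eq (s := {h | η ≤ μ h}) hinf n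
  have h2 : (n : ℝ) * η ≤ ∑ h ∈ F, μ h := by
    rw [← hc, ← nsmul_eq_mul, ← Finset.sum_const]
    exact Finset.sum_le_sum fun h hh => hF hh
  rw [div_lt_iff₀ hη] at hn
  linarith [h1 F]

lemma approx_finite (μ : G → ℝ) (h1 : ∀ F : Finset G, ∑ h ∈ F, μ h ≤ 1) (h₀ : G)
    (hη : 0 < μ h₀) : {t : G | ∀ h, |μ (t⁻¹ * h) - μ h| ≤ μ h₀ / 2}.Finite := by
  refine Set.Finite.of_finite_image (f := fun t : G => t⁻¹ * h₀)
    ((big_finite μ h1 (μ h₀ / 2) (by linarith)).subset ?_) ?_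
  · rintro _ ⟨t, ht, rfl⟩
    have := (abs_le.mp (ht h₀)).1
    show μ h₀ / 2 ≤ μ (t⁻¹ * h₀)
    linarith
  · intro a _ b _ hab
    simpa using hab

lemma stab_finite (μ : G → ℝ) (h1 : ∀ F : Finset G, ∑ h ∈ F, μ h ≤ 1) (h₀ : G)
    (hη : 0 < μ h₀) : ((Stab μ : Subgroup G) : Set G).Finite := by
  refine (approx_finite μ h1 h₀ hη).subset fun t ht h => ?_
  rw [mem_Stab.mp ht h, sub_self, abs_zero]
  linarith

lemma exists_eps (μ : G → ℝ) (h1 : ∀ F : Finset G, ∑ h ∈ F, μ h ≤ 1) (h₀ : G)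
    (hη : 0 < μ h₀) : ∃ ε : ℝ, 0 < ε ∧ ∀ t : G, (∀ h, |μ (t⁻¹ * h) - μ h| ≤ ε) → t ∈ Stab μ := by
  have h2 : ∀ᶠ ε : ℝ in 𝓝[>] 0, ∀ t ∈ {t : G | ∀ h, |μ (t⁻¹ * h) - μ h| ≤ μ h₀ / 2},
      (∀ h, |μ (t⁻¹ * h) - μ h| ≤ ε) → t ∈ Stab μ := by
    rw [Filter.eventually_all_finite (approx_finite μ h1 h₀ hη)]
    intro t _
    by_cases ht : t ∈ Stab μ
    · exact Eventually.of_forall fun _ _ => ht
    · rw [mem_Stab] at ht
      push Not at ht
      obtain ⟨h, hh⟩ := ht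
      have h3 : 0 < |μ (t⁻¹ * h) - μ h| := abs_pos.mpr (sub_ne_zero.mpr hh)
      filter_upwards [Ioo_mem_nhdsGT h3] with ε hε h4
      have := h4 h
      linarith [hε.2]
  obtain ⟨ε, h3, h4⟩ := (h2.and (Ioo_mem_nhdsGT (show (0:ℝ) < μ h₀ / 2 by linarith))).exists
  refine ⟨ε, h4.1, fun t ht => h3 t (fun h => (ht h).trans h4.2.le) ht⟩

lemma not_bad {f : ℕ → G} {ν : ℝ → G → ℝ} {s ε : ℝ} {p : ℕ} (hp : p.Prime)
    (h : p ∉ Bad f ν s ε) (k : G) : |ν (s - Real.log p) ((f p)⁻¹ * k) - ν s k| ≤ ε := by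
  by_contra hc
  push Not at hc
  exact h ⟨hp, k, hc⟩

/-- Structure theorem. -/
theorem thmK (f : ℕ → G) (ν : ℝ → G → ℝ) (hν : IsFlow f ν) (h₀ : G) (hpos : 0 < ν 0 h₀) :
    ∃ B : Subgroup G, (B : Set G).Finite ∧ RS {p | p.Prime ∧ f p ∉ B} ∧
      ∀ t ∈ B, ∀ h, ν 0 (t * h) = ν 0 h := by
  obtain ⟨e, he, hst⟩ := exists_eps (ν 0) (hν.sum_le 0) h₀ hpos
  have hinv : ∀ t ∈ Stab (ν 0), ∀ h, ν 0 (t * h) = ν 0 h := by
    intro t ht h
    have := mem_Stab.mp ht (t * h)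
    rw [inv_mul_cancel_left] at this
    exact this.symm
  refine ⟨Stab (ν 0), stab_finite (ν 0) (hν.sum_le 0) h₀ hpos, ?_, hinv⟩
  refine (bad_rs f ν hν 0 (e / 4) (by linarith)).mono ?_
  rintro p₁ ⟨hp₁, hfp₁⟩
  by_contra hbad
  apply hfp₁
  -- two close good primes
  have close : ∀ p q : ℕ, p.Prime → q.Prime → p ∉ Bad f ν 0 (e / 4) → q ∉ Bad f ν 0 (e / 4) →
      |Real.log p - Real.log q| ≤ e / 4 → f p * (f q)⁻¹ ∈ Stab (ν 0) := by
    intro p q hp hq hpb hqb hpq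
    apply hst
    intro h
    have a1 := not_bad hp hpb h
    have a2 := not_bad hq hqb (f q * ((f p)⁻¹ * h))
    have a3 := hν.lip (0 - Real.log p) (0 - Real.log q) ((f p)⁻¹ * h)
    rw [inv_mul_cancel_left] at a2
    have a4 : |(0 - Real.log p) - (0 - Real.log q)| ≤ e / 4 := by
      rw [show (0 - Real.log p) - (0 - Real.log q) = -(Real.log p - Real.log q) by ring, abs_neg]
      exact hpq
    have a5 : (f p * (f q)⁻¹)⁻¹ * h = f q * ((f p)⁻¹ * h) := by group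
    rw [a5]
    have a7 := a3.trans a4
    rw [abs_le] at a1 a2 a7 ⊢
    constructor <;> linarith [a1.1, a1.2, a2.1, a2.2, a7.1, a7.2]
  have hS : RS (Bad f ν 0 (e / 4) ∪ Bad f ν (0 - Real.log p₁) (e / 4)) :=
    (bad_rs f ν hν 0 (e / 4) (by linarith)).union (bad_rs f ν hν _ (e / 4) (by linarith))
  obtain ⟨y, hy⟩ := pw _ hS (e / 8) (Real.log p₁ + e / 8) (by linarith)
  have hlog : 0 ≤ Real.log p₁ := Real.log_nonneg (by exact_mod_cast hp₁.one_lt.le)
  have hq : ∀ i : ℕ, ∃ q : ℕ, (i:ℝ) * (e / 8) ≤ Real.log p₁ + e / 8 → q.Prime ∧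
      q ∉ Bad f ν 0 (e / 4) ∪ Bad f ν (0 - Real.log p₁) (e / 4) ∧
      y + i * (e / 8) ≤ Real.log q ∧ Real.log q ≤ y + i * (e / 8) + e / 8 := by
    intro i
    by_cases hi : (i:ℝ) * (e / 8) ≤ Real.log p₁ + e / 8
    · obtain ⟨q, hq⟩ := hy (y + i * (e / 8)) (by
        have : 0 ≤ (i:ℝ) * (e / 8) := by positivity
        linarith) (by linarith)
      exact ⟨q, fun _ => hq⟩
    · exact ⟨0, fun h => absurd h hi⟩
  choose q hq using hq
  have h0 : ((0:ℕ):ℝ) * (e / 8) ≤ Real.log p₁ + e / 8 := by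
    rw [Nat.cast_zero, zero_mul]; linarith
  have chain : ∀ i : ℕ, (i:ℝ) * (e / 8) ≤ Real.log p₁ + e / 8 →
      f (q i) * (f (q 0))⁻¹ ∈ Stab (ν 0) := by
    intro i
    induction i with
    | zero => intro _; rw [mul_inv_cancel]; exact one_mem _
    | succ i ih =>
      intro hi
      have hi' : (i:ℝ) * (e / 8) ≤ Real.log p₁ + e / 8 := by
        push_cast at hi
        linarith
      obtain ⟨b1, b2, b3, b4⟩ := hq i hi'
      obtain ⟨c1, c2, c3, c4⟩ := hq (i + 1) hi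
      have h1 := close (q (i + 1)) (q i) c1 b1 (fun h => c2 (Or.inl h)) (fun h => b2 (Or.inl h)) (by
        push_cast at c3 c4
        rw [abs_le]
        constructor <;> linarith)
      have h2 := (Stab (ν 0)).mul_mem h1 (ih hi')
      have h3 : f (q (i + 1)) * (f (q i))⁻¹ * (f (q i) * (f (q 0))⁻¹)
          = f (q (i + 1)) * (f (q 0))⁻¹ := by group
      rwa [h3] at h2
  obtain ⟨b1, b2, b3, b4⟩ := hq 0 h0
  rw [Nat.cast_zero, zero_mul, add_zero] at b3 b4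
  set T := Real.log p₁ + Real.log (q 0) with hT
  set j := ⌊(T - y) / (e / 8)⌋₊ with hj
  have hTy : 0 ≤ (T - y) / (e / 8) := div_nonneg (by linarith) (by linarith)
  have hj1 : (j:ℝ) * (e / 8) ≤ T - y := by
    have := Nat.floor_le hTy
    rwa [le_div_iff₀ (by linarith)] at this
  have hj2 : T - y < ((j:ℝ) + 1) * (e / 8) := by
    have := Nat.lt_floor_add_one ((T - y) / (e / 8))
    rwa [div_lt_iff₀ (by linarith)] at this
  have hjL : (j:ℝ) * (e / 8) ≤ Real.log p₁ + e / 8 := by linarith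
  obtain ⟨c1, c2, c3, c4⟩ := hq j hjL
  have hch := chain j hjL
  -- the triple relation
  have htri : f (q j) * (f (q 0))⁻¹ * (f p₁)⁻¹ ∈ Stab (ν 0) := by
    apply hst
    intro h
    have a1 := not_bad c1 (fun h => c2 (Or.inl h)) h
    have a2 := hν.lip (0 - Real.log (q j)) (0 - Real.log p₁ - Real.log (q 0)) ((f (q j))⁻¹ * h)
    have a3 := not_bad b1 (fun h => b2 (Or.inr h)) (f (q 0) * ((f (q j))⁻¹ * h))
    have a4 := not_bad hp₁ hbad (f p₁ * (f (q 0) * ((f (q j))⁻¹ * h)))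
    rw [inv_mul_cancel_left] at a3 a4
    have a5 : |(0 - Real.log (q j)) - (0 - Real.log p₁ - Real.log (q 0))| ≤ e / 4 := by
      rw [abs_le]
      constructor <;> linarith
    have a6 : (f (q j) * (f (q 0))⁻¹ * (f p₁)⁻¹)⁻¹ * h
        = f p₁ * (f (q 0) * ((f (q j))⁻¹ * h)) := by group
    rw [a6]
    have a7 := a2.trans a5
    rw [abs_le] at a1 a3 a4 a7 ⊢
    constructor <;> linarith [a1.1, a1.2, a3.1, a3.2, a4.1, a4.2, a7.1, a7.2]
  have h5 : (f p₁)⁻¹ ∈ Stab (ν 0) := ((Stab (ν 0)).mul_mem_cancel_left hch).mp htri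
  exact (Stab (ν 0)).inv_mem_iff.mp h5


lemma periodic_mean (g : ℕ → ℝ) (Q : ℕ) (hQ : 0 < Q) (hg : ∀ n, g (n + Q) = g n) :
    ∃ D : ℝ, Tendsto (fun N : ℕ => (∑ n ∈ Ioc 0 N, g n) / (N:ℝ)) atTop (𝓝 D) := by
  set S : ℕ → ℝ := fun N => ∑ n ∈ Ioc 0 N, g n with hS
  have hS1 : ∀ N, S (N + 1) = S N + g (N + 1) := by
    intro N
    simp only [hS]
    rw [Finset.sum_Ioc_succ_top (Nat.zero_le N)]
  have hSQ : ∀ N, S (N + Q) = S N + S Q := by
    intro N
    induction N with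
    | zero => simp [hS]
    | succ N ih =>
      have h1 : N + 1 + Q = (N + Q) + 1 := by ring
      have h2 : g (N + Q + 1) = g (N + 1) := by rw [← hg (N + 1)]; congr 1; ring
      rw [h1, hS1, ih, hS1, h2]
      ring
  have hQ0 : (0:ℝ) < Q := by exact_mod_cast hQ
  set r : ℕ → ℝ := fun N => S N - N * (S Q / Q) with hr
  have hrper : Function.Periodic r Q := by
    intro N
    simp only [hr]
    rw [hSQ]
    push_cast
    field_simp
    ring
  have hrb : ∀ N, |r N| ≤ ∑ i ∈ Finset.range Q, |r i| := by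
    intro N
    rw [← hrper.map_mod_nat N]
    exact Finset.single_le_sum (f := fun i => |r i|) (fun i _ => abs_nonneg _)
      (Finset.mem_range.mpr (Nat.mod_lt N hQ))
  refine ⟨S Q / Q, ?_⟩
  have h1 : Tendsto (fun N : ℕ => r N / (N:ℝ)) atTop (𝓝 0) := by
    refine squeeze_zero_norm (a := fun N : ℕ => (∑ i ∈ Finset.range Q, |r i|) / (N:ℝ)) ?_
      (tendsto_const_div_atTop_nhds_zero_nat _)
    intro N
    rw [norm_div, Real.norm_eq_abs, Real.norm_of_nonneg (Nat.cast_nonneg N)]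
    exact div_le_div_of_nonneg_right (hrb N) (Nat.cast_nonneg N)
  have h2 : Tendsto (fun N : ℕ => r N / (N:ℝ) + S Q / Q) atTop (𝓝 (0 + S Q / Q)) :=
    h1.add tendsto_const_nhds
  rw [zero_add] at h2
  refine h2.congr' ?_
  filter_upwards [eventually_gt_atTop 0] with N hN
  have hN0 : (N:ℝ) ≠ 0 := by exact_mod_cast hN.ne'
  simp only [hr]
  field_simp
  ring

lemma mem_of_squarefree (f : ℕ → G) (hf1 : f 1 = 1)
    (hf : ∀ m n : ℕ, 0 < m → 0 < n → Nat.Coprime m n → f (m * n) = f m * f n)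
    (B : Subgroup G) (m : ℕ) (hm : Squarefree m) (hp : ∀ p, p.Prime → p ∣ m → f p ∈ B) :
    f m ∈ B := by
  induction m using Nat.recOnPosPrimePosCoprime with
  | prime_pow p n hpp hn =>
    have h1 : n = 1 := by
      by_contra hne
      exact hpp.not_isUnit (hm p (by
        rw [← sq]; exact pow_dvd_pow p (by omega)))
    rw [h1, pow_one] at hp ⊢
    exact hp p hpp dvd_rfl
  | zero => exact absurd hm not_squarefree_zero
  | one => rw [hf1]; exact one_mem _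
  | coprime a b ha hb hab iha ihb =>
    rw [hf a b (by omega) (by omega) hab]
    have h2 := (Nat.squarefree_mul hab).mp hm
    exact B.mul_mem (iha h2.1 fun p hpp hpa => hp p hpp (hpa.mul_right b))
      (ihb h2.2 fun p hpp hpb => hp p hpp (hpb.mul_left a))

lemma gcd_mem (f : ℕ → G) (hf1 : f 1 = 1)
    (hf : ∀ m n : ℕ, 0 < m → 0 < n → Nat.Coprime m n → f (m * n) = f m * f n)
    (B : Subgroup G) (K n : ℕ) (hn : 0 < n)
    (h1 : ∀ p, p.Prime → K < p → p ∣ n → f p ∈ B)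
    (h2 : ∀ p, p.Prime → K < p → ¬ p ^ 2 ∣ n)
    (h3 : ∀ p, p.Prime → p ≤ K → ¬ p ^ K ∣ n) :
    f n * (f (Nat.gcd n ((K.factorial) ^ K)))⁻¹ ∈ B := by
  set Q := (K.factorial) ^ K with hQ
  have hQ0 : 0 < Q := pow_pos (Nat.factorial_pos K) K
  have hg0 : 0 < Nat.gcd n Q := Nat.gcd_pos_of_pos_left _ hn
  obtain ⟨m, hm⟩ := Nat.gcd_dvd_left n Q
  have hm0 : 0 < m := by
    rcases Nat.eq_zero_or_pos m with h | h
    · rw [h, mul_zero] at hm; omega
    · exact h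
  have hmn : m ∣ n := ⟨Nat.gcd n Q, by rw [mul_comm]; exact hm⟩
  have hbig : ∀ p, p.Prime → p ∣ m → K < p := by
    intro p hp hpm
    by_contra hle
    push Not at hle
    have hpK : p ∣ K.factorial := (hp.dvd_factorial).mpr hle
    have hind : ∀ k, k ≤ K → p ^ k ∣ n := by
      intro k
      induction k with
      | zero => intro _; simp
      | succ k ih =>
        intro hk
        have h4 := ih (by omega)
        have h5 : p ^ k ∣ Q := (pow_dvd_pow p (by omega : k ≤ K)).trans (pow_dvd_pow_of_dvd hpK K)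
        have h6 : p ^ k ∣ Nat.gcd n Q := Nat.dvd_gcd h4 h5
        rw [pow_succ, hm]
        exact mul_dvd_mul h6 hpm
    exact h3 p hp hle (hind K le_rfl)
  have hcop : Nat.Coprime m (Nat.gcd n Q) := by
    apply Nat.coprime_of_dvd
    intro p hp hpm hpg
    have h4 := hbig p hp hpm
    have h5 : p ∣ Q := hpg.trans (Nat.gcd_dvd_right n Q)
    have h6 := (hp.dvd_factorial).mp (hp.dvd_of_dvd_pow h5)
    omega
  have hsq : Squarefree m := by
    rw [Nat.squarefree_iff_prime_squarefree]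
    intro p hp hpp
    have h4 := hbig p hp ((dvd_mul_right p p).trans hpp)
    exact h2 p hp h4 (by rw [sq]; exact hpp.trans hmn)
  have hfn : f n = f m * f (Nat.gcd n Q) := by
    conv_lhs => rw [hm, mul_comm]
    exact hf m _ hm0 hg0 hcop
  rw [hfn, mul_assoc, mul_inv_cancel, mul_one]
  exact mem_of_squarefree f hf1 hf B m hsq fun p hp hpm =>
    h1 p hp (hbig p hp hpm) (hpm.trans hmn)

lemma mult_count_nat (N d : ℕ) :
    (∑ n ∈ Ioc 0 N, if d ∣ n then (1:ℝ) else 0) ≤ (N:ℝ) / d := by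
  have := mult_count (N:ℝ) (Nat.cast_nonneg N) d
  rw [Nat.floor_natCast] at this
  rw [this]
  exact Nat.floor_le (by positivity)

/-- the proportion of exceptional integers is small -/
lemma exc_small (f : ℕ → G) (B : Subgroup G) (hB : RS {p | p.Prime ∧ f p ∉ B})
    (ε : ℝ) (hε : 0 < ε) : ∃ K : ℕ, ∀ N : ℕ,
      (∑ n ∈ Ioc 0 N, if ((∀ p, p.Prime → K < p → p ∣ n → f p ∈ B) ∧
        (∀ p, p.Prime → K < p → ¬ p ^ 2 ∣ n) ∧ (∀ p, p.Prime → p ≤ K → ¬ p ^ K ∣ n))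
        then (0:ℝ) else 1) ≤ ε * N := by
  obtain ⟨E, hE, hER⟩ : ∃ E : Set ℕ, (∀ p, p ∈ E ↔ p.Prime ∧ f p ∉ B) ∧ RS E :=
    ⟨{p | p.Prime ∧ f p ∉ B}, fun p => Iff.rfl, hB⟩
  have hs2 : Summable (fun n : ℕ => 1 / (n:ℝ) ^ 2) := Real.summable_one_div_nat_pow.mpr (by norm_num)
  obtain ⟨s1, h1⟩ := summable_iff_vanishing_norm.mp hER (ε / 3) (by linarith)
  obtain ⟨s2, h2⟩ := summable_iff_vanishing_norm.mp hs2 (ε / 3) (by linarith)
  have h3 : ∀ᶠ K : ℕ in atTop, (K:ℝ) * (1 / 2) ^ K < ε / 3 :=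
    (tendsto_self_mul_const_pow_of_lt_one (by norm_num) (by norm_num)).eventually
      (gt_mem_nhds (by linarith))
  obtain ⟨K, hK3, hK⟩ := (h3.and (eventually_ge_atTop (max (s1.sup id) (s2.sup id)))).exists
  refine ⟨K, fun N => ?_⟩
  have hd1 : Disjoint (Ioc K N) s1 := by
    rw [Finset.disjoint_left]
    intro n hn hn'
    have h4 : n ≤ s1.sup id := Finset.le_sup (f := id) hn'
    have h5 := (le_max_left (s1.sup id) (s2.sup id)).trans hK
    rw [Finset.mem_Ioc] at hn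
    omega
  have hd2 : Disjoint (Ioc K N) s2 := by
    rw [Finset.disjoint_left]
    intro n hn hn'
    have h4 : n ≤ s2.sup id := Finset.le_sup (f := id) hn'
    have h5 := (le_max_right (s1.sup id) (s2.sup id)).trans hK
    rw [Finset.mem_Ioc] at hn
    omega
  have hb1 := (le_abs_self _).trans (h1 _ hd1).le
  have hb2 := (le_abs_self _).trans (h2 _ hd2).le
  have hpt : ∀ n ∈ Ioc 0 N, (if ((∀ p, p.Prime → K < p → p ∣ n → f p ∈ B) ∧
        (∀ p, p.Prime → K < p → ¬ p ^ 2 ∣ n) ∧ (∀ p, p.Prime → p ≤ K → ¬ p ^ K ∣ n))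
        then (0:ℝ) else 1)
      ≤ ∑ p ∈ Ioc K N, (if p ∈ E then (if p ∣ n then (1:ℝ) else 0) else 0)
        + ∑ p ∈ Ioc K N, (if p ^ 2 ∣ n then (1:ℝ) else 0)
        + ∑ p ∈ Ioc 1 K, (if p ^ K ∣ n then (1:ℝ) else 0) := by
    intro n hn
    rw [Finset.mem_Ioc] at hn
    have n1 : 0 ≤ ∑ p ∈ Ioc K N, (if p ∈ E then
        (if p ∣ n then (1:ℝ) else 0) else 0) :=
      Finset.sum_nonneg fun p _ => by split_ifs <;> norm_num
    have n2 : 0 ≤ ∑ p ∈ Ioc K N, (if p ^ 2 ∣ n then (1:ℝ) else 0) :=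
      Finset.sum_nonneg fun p _ => by split_ifs <;> norm_num
    have n3 : 0 ≤ ∑ p ∈ Ioc 1 K, (if p ^ K ∣ n then (1:ℝ) else 0) :=
      Finset.sum_nonneg fun p _ => by split_ifs <;> norm_num
    split_ifs with hc
    · linarith
    · by_cases c1 : ∀ p, p.Prime → K < p → p ∣ n → f p ∈ B
      · by_cases c2 : ∀ p, p.Prime → K < p → ¬ p ^ 2 ∣ n
        · have c3 : ¬ ∀ p, p.Prime → p ≤ K → ¬ p ^ K ∣ n := fun c3 => hc ⟨c1, c2, c3⟩
          push Not at c3
          obtain ⟨p, hp, hpK, hpn⟩ := c3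
          have h6 : (1:ℝ) ≤ ∑ p ∈ Ioc 1 K, (if p ^ K ∣ n then (1:ℝ) else 0) := by
            refine le_trans ?_ (Finset.single_le_sum (f := fun p => if p ^ K ∣ n then (1:ℝ) else 0)
              (fun p _ => by split_ifs <;> norm_num)
              (Finset.mem_Ioc.mpr ⟨hp.one_lt, hpK⟩))
            show (1:ℝ) ≤ if p ^ K ∣ n then (1:ℝ) else 0
            rw [if_pos hpn]
          linarith
        · push Not at c2
          obtain ⟨p, hp, hpK, hpn⟩ := c2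
          have h6 : (1:ℝ) ≤ ∑ p ∈ Ioc K N, (if p ^ 2 ∣ n then (1:ℝ) else 0) := by
            refine le_trans ?_ (Finset.single_le_sum (f := fun p => if p ^ 2 ∣ n then (1:ℝ) else 0)
              (fun p _ => by split_ifs <;> norm_num)
              (Finset.mem_Ioc.mpr ⟨hpK, ?_⟩))
            · show (1:ℝ) ≤ if p ^ 2 ∣ n then (1:ℝ) else 0
              rw [if_pos hpn]
            · exact ((Nat.le_of_dvd hn.1 ((dvd_pow_self p two_ne_zero).trans hpn))).trans hn.2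
          linarith
      · push Not at c1
        obtain ⟨p, hp, hpK, hpn, hpB⟩ := c1
        have h6 : (1:ℝ) ≤ ∑ p ∈ Ioc K N, (if p ∈ E then
            (if p ∣ n then (1:ℝ) else 0) else 0) := by
          refine le_trans ?_ (Finset.single_le_sum
            (f := fun p => if p ∈ E then
              (if p ∣ n then (1:ℝ) else 0) else 0)
            (fun p _ => by split_ifs <;> norm_num)
            (Finset.mem_Ioc.mpr ⟨hpK, (Nat.le_of_dvd hn.1 hpn).trans hn.2⟩))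
          show (1:ℝ) ≤ if p ∈ E then (if p ∣ n then (1:ℝ) else 0) else 0
          rw [if_pos ((hE p).mpr ⟨hp, hpB⟩), if_pos hpn]
        linarith
  refine (Finset.sum_le_sum hpt).trans ?_
  rw [Finset.sum_add_distrib, Finset.sum_add_distrib]
  have g1 : ∑ n ∈ Ioc 0 N, ∑ p ∈ Ioc K N, (if p ∈ E then
        (if p ∣ n then (1:ℝ) else 0) else 0) ≤ ε / 3 * N := by
    rw [Finset.sum_comm]
    calc ∑ p ∈ Ioc K N, ∑ n ∈ Ioc 0 N, (if p ∈ E then
        (if p ∣ n then (1:ℝ) else 0) else 0)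
        ≤ ∑ p ∈ Ioc K N, (if p ∈ E then 1 / (p:ℝ) else 0) * N := by
          refine Finset.sum_le_sum fun p _ => ?_
          by_cases hp : p ∈ E
          · simp only [if_pos hp]
            refine (mult_count_nat N p).trans (le_of_eq ?_)
            ring
          · simp only [if_neg hp]
            simp
      _ = (∑ p ∈ Ioc K N, (if p ∈ E then 1 / (p:ℝ) else 0)) * N := by
          rw [Finset.sum_mul]
      _ ≤ ε / 3 * N := mul_le_mul_of_nonneg_right hb1 (Nat.cast_nonneg N)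
  have g2 : ∑ n ∈ Ioc 0 N, ∑ p ∈ Ioc K N, (if p ^ 2 ∣ n then (1:ℝ) else 0) ≤ ε / 3 * N := by
    rw [Finset.sum_comm]
    calc ∑ p ∈ Ioc K N, ∑ n ∈ Ioc 0 N, (if p ^ 2 ∣ n then (1:ℝ) else 0)
        ≤ ∑ p ∈ Ioc K N, (1 / (p:ℝ) ^ 2) * N := by
          refine Finset.sum_le_sum fun p _ => ?_
          refine (mult_count_nat N (p ^ 2)).trans (le_of_eq ?_)
          push_cast
          ring
      _ = (∑ p ∈ Ioc K N, (1 / (p:ℝ) ^ 2)) * N := by rw [Finset.sum_mul]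
      _ ≤ ε / 3 * N := mul_le_mul_of_nonneg_right hb2 (Nat.cast_nonneg N)
  have g3 : ∑ n ∈ Ioc 0 N, ∑ p ∈ Ioc 1 K, (if p ^ K ∣ n then (1:ℝ) else 0) ≤ ε / 3 * N := by
    rw [Finset.sum_comm]
    calc ∑ p ∈ Ioc 1 K, ∑ n ∈ Ioc 0 N, (if p ^ K ∣ n then (1:ℝ) else 0)
        ≤ ∑ p ∈ Ioc 1 K, (1 / 2) ^ K * (N:ℝ) := by
          refine Finset.sum_le_sum fun p hp => ?_
          refine (mult_count_nat N (p ^ K)).trans ?_
          have hp2 : (2:ℝ) ≤ p := by exact_mod_cast (Finset.mem_Ioc.mp hp).1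
          push_cast
          rw [div_eq_mul_inv, mul_comm]
          refine mul_le_mul_of_nonneg_right ?_ (Nat.cast_nonneg N)
          rw [one_div, inv_pow]
          exact inv_anti₀ (by positivity) (pow_le_pow_left₀ (by norm_num) hp2 K)
      _ = (((K - 1 : ℕ) : ℝ) * (1 / 2) ^ K) * N := by
          rw [Finset.sum_const, Nat.card_Ioc, nsmul_eq_mul]; ring
      _ ≤ ε / 3 * N := by
          refine mul_le_mul_of_nonneg_right ?_ (Nat.cast_nonneg N)
          refine le_trans ?_ hK3.le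
          refine mul_le_mul_of_nonneg_right ?_ (by positivity)
          exact_mod_cast Nat.sub_le K 1
  linarith

/-- cosets of a subgroup containing almost all `f p` have a density -/
theorem coset_density (f : ℕ → G) (hf1 : f 1 = 1)
    (hf : ∀ m n : ℕ, 0 < m → 0 < n → Nat.Coprime m n → f (m * n) = f m * f n)
    (B : Subgroup G) (hB : RS {p | p.Prime ∧ f p ∉ B}) (h : G) :
    ∃ D : ℝ, Tendsto (fun N : ℕ => (∑ n ∈ Ioc 0 N, if f n * h⁻¹ ∈ B then (1:ℝ) else 0) / (N:ℝ))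
      atTop (𝓝 D) := by
  apply cauchySeq_tendsto_of_complete
  rw [Metric.cauchySeq_iff]
  intro ε hε
  obtain ⟨K, hK⟩ := exc_small f B hB (ε / 4) (by linarith)
  set Q := (K.factorial) ^ K with hQ
  have hQ0 : 0 < Q := pow_pos (Nat.factorial_pos K) K
  obtain ⟨D, hD⟩ := periodic_mean (fun n => if f (Nat.gcd n Q) * h⁻¹ ∈ B then (1:ℝ) else 0) Q hQ0
    (by intro n; simp only [Nat.gcd_add_self_left])
  obtain ⟨N0, hN0⟩ := (Metric.tendsto_atTop.mp hD) (ε / 4) (by linarith)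
  have hcl : ∀ N : ℕ, 0 < N → |(∑ n ∈ Ioc 0 N, if f n * h⁻¹ ∈ B then (1:ℝ) else 0) / (N:ℝ)
      - (∑ n ∈ Ioc 0 N, if f (Nat.gcd n Q) * h⁻¹ ∈ B then (1:ℝ) else 0) / (N:ℝ)| ≤ ε / 4 := by
    intro N hN
    have hNr : (0:ℝ) < N := by exact_mod_cast hN
    rw [← sub_div, abs_div, abs_of_pos hNr, div_le_iff₀ hNr, ← Finset.sum_sub_distrib]
    refine (Finset.abs_sum_le_sum_abs _ _).trans (le_trans (Finset.sum_le_sum fun n hn => ?_) (hK N))
    rw [Finset.mem_Ioc] at hn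
    by_cases hc : ((∀ p, p.Prime → K < p → p ∣ n → f p ∈ B) ∧
        (∀ p, p.Prime → K < p → ¬ p ^ 2 ∣ n) ∧ (∀ p, p.Prime → p ≤ K → ¬ p ^ K ∣ n))
    · rw [if_pos hc]
      have h4 := gcd_mem f hf1 hf B K n hn.1 hc.1 hc.2.1 hc.2.2
      have h7 : f n * h⁻¹ ∈ B ↔ f (Nat.gcd n Q) * h⁻¹ ∈ B := by
        have h6 : (f n * (f (Nat.gcd n Q))⁻¹) * (f (Nat.gcd n Q) * h⁻¹) = f n * h⁻¹ := by group
        rw [← h6]
        exact B.mul_mem_cancel_left h4
      by_cases h8 : f n * h⁻¹ ∈ B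
      · rw [if_pos h8, if_pos (h7.mp h8)]; simp
      · rw [if_neg h8, if_neg (fun h9 => h8 (h7.mpr h9))]; simp
    · rw [if_neg hc]
      split_ifs <;> norm_num
  refine ⟨max N0 1, fun m hm n hn => ?_⟩
  have hm1 := hcl m (by have := (le_max_right N0 1).trans hm; omega)
  have hn1 := hcl n (by have := (le_max_right N0 1).trans hn; omega)
  have hm2 := hN0 m ((le_max_left N0 1).trans hm)
  have hn2 := hN0 n ((le_max_left N0 1).trans hn)
  rw [Real.dist_eq] at hm2 hn2 ⊢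
  rw [abs_lt] at hm2 hn2 ⊢
  rw [abs_le] at hm1 hn1
  constructor <;> linarith [hm1.1, hm1.2, hn1.1, hn1.2, hm2.1, hm2.2, hn2.1, hn2.2]


/-- Ruzsa's question: the level sets of a multiplicative function with values in a group have a
natural density. -/
theorem main (f : ℕ → G) (hf1 : f 1 = 1)
    (hf : ∀ m n : ℕ, 0 < m → 0 < n → Nat.Coprime m n → f (m * n) = f m * f n) (g : G) :
    ∃ d : ℝ, Tendsto (fun N : ℕ => NN f (N:ℝ) g) atTop (𝓝 d) := by
  by_cases hex : ∃ n : ℕ, ∃ B : Subgroup G, (B : Set G).Finite ∧ RS {p | p.Prime ∧ f p ∉ B} ∧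
      Nat.card B = n
  · -- a minimal finite subgroup containing almost all `f p`
    obtain ⟨B₀, hfin, hRS, hcard⟩ := Nat.find_spec hex
    have hmin : ∀ B : Subgroup G, (B : Set G).Finite → RS {p | p.Prime ∧ f p ∉ B} → B₀ ≤ B := by
      intro B hBf hBR
      have h1 : RS {p | p.Prime ∧ f p ∉ B₀ ⊓ B} := by
        refine (hRS.union hBR).mono ?_
        rintro p ⟨hp, hpB⟩
        rw [Subgroup.mem_inf, not_and_or] at hpB
        rcases hpB with h | h
        · exact Or.inl ⟨hp, h⟩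
        · exact Or.inr ⟨hp, h⟩
      have h2 : ((B₀ ⊓ B : Subgroup G) : Set G).Finite := hfin.subset fun t ht => ht.1
      have h3 : Nat.find hex ≤ Nat.card (B₀ ⊓ B : Subgroup G) :=
        Nat.find_min' hex ⟨B₀ ⊓ B, h2, h1, rfl⟩
      rw [← hcard] at h3
      have : Finite B₀ := hfin
      have h4 : B₀ ⊓ B = B₀ := Subgroup.eq_of_le_of_card_ge inf_le_left h3
      exact inf_eq_left.mp h4
    obtain ⟨D, hD⟩ := coset_density f hf1 hf B₀ hRS g
    have hfb : Finite B₀ := hfin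
    have hc0 : (0:ℝ) < Nat.card B₀ := by exact_mod_cast Nat.card_pos
    refine ⟨D / Nat.card B₀, ?_⟩
    rw [tendsto_iff_ultrafilter]
    intro V hV
    have hU : ((V.map (fun n : ℕ => (n:ℝ)) : Ultrafilter ℝ) : Filter ℝ) ≤ atTop := by
      rw [Ultrafilter.coe_map]
      exact tendsto_natCast_atTop_atTop.mono_left hV
    obtain ⟨ν, hν, hlim⟩ := exists_flow f hf _ hU
    have hlim0 : ∀ h, Tendsto (fun n : ℕ => NN f (n:ℝ) h) V (𝓝 (ν 0 h)) := by
      intro h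
      have := hlim 0 h
      rw [Ultrafilter.coe_map, Filter.tendsto_map'_iff] at this
      refine this.congr fun n => ?_
      simp
    have hinv : ∀ t ∈ B₀, ∀ h, ν 0 (t * h) = ν 0 h := by
      by_cases hz : ∃ h, 0 < ν 0 h
      · obtain ⟨h₀, hh₀⟩ := hz
        obtain ⟨B, hBf, hBR, hBi⟩ := thmK f ν hν h₀ hh₀
        exact fun t ht => hBi t (hmin B hBf hBR ht)
      · push Not at hz
        intro t _ h
        rw [le_antisymm (hz (t * h)) (hν.nonneg 0 _), le_antisymm (hz h) (hν.nonneg 0 _)]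
    set F : Finset G := hfin.toFinset with hF
    have hsum : Tendsto (fun n : ℕ => ∑ t ∈ F, NN f (n:ℝ) (t * g)) V
        (𝓝 (∑ t ∈ F, ν 0 (t * g))) := tendsto_finsetSum F fun t _ => hlim0 (t * g)
    have hsum2 : ∀ n : ℕ, ∑ t ∈ F, NN f (n:ℝ) (t * g)
        = (∑ k ∈ Ioc 0 n, if f k * g⁻¹ ∈ B₀ then (1:ℝ) else 0) / (n:ℝ) := by
      intro n
      unfold NN cnt
      rw [← Finset.sum_div, Finset.sum_comm, Nat.floor_natCast]
      congr 1
      refine Finset.sum_congr rfl fun k _ => ?_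
      have h1 : ∀ t ∈ F, (if f k = t * g then (1:ℝ) else 0) = if f k * g⁻¹ = t then (1:ℝ) else 0 := by
        intro t _
        have h2 : f k = t * g ↔ f k * g⁻¹ = t := by
          rw [mul_inv_eq_iff_eq_mul]
        by_cases h3 : f k * g⁻¹ = t
        · rw [if_pos h3, if_pos (h2.mpr h3)]
        · rw [if_neg h3, if_neg (fun h4 => h3 (h2.mp h4))]
      rw [Finset.sum_congr rfl h1, Finset.sum_ite_eq]
      have h5 : f k * g⁻¹ ∈ F ↔ f k * g⁻¹ ∈ B₀ := by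
        rw [hF, Set.Finite.mem_toFinset]
        rfl
      by_cases h6 : f k * g⁻¹ ∈ B₀
      · rw [if_pos h6, if_pos (h5.mpr h6)]
      · rw [if_neg h6, if_neg (fun h7 => h6 (h5.mp h7))]
    have hD' : D = ∑ t ∈ F, ν 0 (t * g) := by
      refine tendsto_nhds_unique (hD.mono_left hV) ?_
      refine hsum.congr fun n => hsum2 n
    have hD2 : D = Nat.card B₀ * ν 0 g := by
      rw [hD', Finset.sum_congr rfl (fun t ht => hinv t ((Set.Finite.mem_toFinset hfin).mp ht) g),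
        Finset.sum_const, nsmul_eq_mul]
      congr 2
      rw [← Set.ncard_eq_toFinset_card _ hfin]
      rfl
    have hval : D / Nat.card B₀ = ν 0 g := by
      rw [hD2]
      field_simp
    rw [hval]
    exact hlim0 g
  · refine ⟨0, ?_⟩
    rw [tendsto_iff_ultrafilter]
    intro V hV
    have hU : ((V.map (fun n : ℕ => (n:ℝ)) : Ultrafilter ℝ) : Filter ℝ) ≤ atTop := by
      rw [Ultrafilter.coe_map]
      exact tendsto_natCast_atTop_atTop.mono_left hV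
    obtain ⟨ν, hν, hlim⟩ := exists_flow f hf _ hU
    have hlim0 : Tendsto (fun n : ℕ => NN f (n:ℝ) g) V (𝓝 (ν 0 g)) := by
      have := hlim 0 g
      rw [Ultrafilter.coe_map, Filter.tendsto_map'_iff] at this
      refine this.congr fun n => ?_
      simp
    have h0 : ν 0 g = 0 := by
      by_contra hne
      have hpos : 0 < ν 0 g := lt_of_le_of_ne (hν.nonneg 0 g) (Ne.symm hne)
      obtain ⟨B, hBf, hBR, _⟩ := thmK f ν hν g hpos
      exact hex ⟨_, B, hBf, hBR, rfl⟩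
    rw [h0] at hlim0
    exact hlim0

/-- the form of the frozen statement -/
theorem main' (f : ℕ → G) (hf1 : f 1 = 1)
    (hf : ∀ m n : ℕ, 0 < m → 0 < n → Nat.Coprime m n → f (m * n) = f m * f n) (g : G) :
    ∃ d : ℝ, Tendsto
      (fun N : ℕ => (Nat.card {m : ℕ // 1 ≤ m ∧ m ≤ N ∧ f m = g} : ℝ) / (N : ℝ)) atTop (𝓝 d) := by
  obtain ⟨d, hd⟩ := main f hf1 hf g
  refine ⟨d, hd.congr fun N => ?_⟩
  unfold NN cnt
  rw [Nat.floor_natCast]
  congr 1
  have h1 : Nat.card {m : ℕ // 1 ≤ m ∧ m ≤ N ∧ f m = g}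
      = ((Ioc 0 N).filter (fun n => f n = g)).card := by
    apply Nat.subtype_card
    intro x
    rw [Finset.mem_filter, Finset.mem_Ioc]
    constructor
    · rintro ⟨⟨a, b⟩, c⟩
      exact ⟨a, b, c⟩
    · rintro ⟨a, b, c⟩
      exact ⟨⟨a, b⟩, c⟩
  rw [h1, Finset.card_filter]
  push_cast
  rfl

end

end Pool.Agent.Helper249.Ruzsa
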